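import Mathlib

set_option autoImplicit false

/-!
# The direction space of the smallest affine space over `F` through a point (P9, (3.2))
-/

namespace Pool.Agent.Lib.MP_0c183c_co_P9T

open Module

variable (F : Type*) {Ω m : Type*} [Field F] [Field Ω] [Algebra F Ω] [Fintype m]

/-- The direction space of the smallest affine subspace defined over `F` which contains `c`. -/
def Hull (c : m → Ω) : Submodule Ω (m → Ω) where
  carrier := {δ | ∀ r : m → F, (∑ i, algebraMap F Ω (r i) * c i ∈ Set.range (algebraMap F Ω)) →
    ∑ i, algebraMap F Ω (r i) * δ i = 0}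
  add_mem' := by
    intro v w hv hw r hr
    simp only [Pi.add_apply, mul_add, Finset.sum_add_distrib, hv r hr, hw r hr, add_zero]
  zero_mem' := by
    intro r _
    simp
  smul_mem' := by
    intro a v hv r hr
    have := hv r hr
    simp only [Pi.smul_apply, smul_eq_mul]
    rw [← mul_zero a, ← this, Finset.mul_sum]
    refine Finset.sum_congr rfl fun i _ => ?_
    ring

theorem mem_Hull {c δ : m → Ω} : δ ∈ Hull F c ↔
    ∀ r : m → F, (∑ i, algebraMap F Ω (r i) * c i ∈ Set.range (algebraMap F Ω)) →
      ∑ i, algebraMap F Ω (r i) * δ i = 0 := Iff.rfl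

/-- `r ↦ ∑ r i * c i` modulo `F`. -/
noncomputable def hullMap (c : m → Ω) : (m → F) →ₗ[F] (Ω ⧸ Submodule.span F ({1} : Set Ω)) :=
  (Submodule.mkQ _).comp (Fintype.linearCombination F c)

theorem mem_ker_hullMap {c : m → Ω} {r : m → F} : r ∈ LinearMap.ker (hullMap F c) ↔
    ∑ i, algebraMap F Ω (r i) * c i ∈ Set.range (algebraMap F Ω) := by
  rw [LinearMap.mem_ker, hullMap, LinearMap.comp_apply, Submodule.mkQ_apply,
    Submodule.Quotient.mk_eq_zero, Submodule.mem_span_singleton, Fintype.linearCombination_apply]
  simp only [Algebra.smul_def, mul_one, Set.mem_range]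

/-- The dimension of the hull is at least the dimension of the span modulo `F`. -/
theorem finrank_range_le (c : m → Ω) :
    finrank F (LinearMap.range (hullMap F c)) ≤ finrank Ω (Hull F c) := by
  classical
  have h1 := LinearMap.finrank_range_add_finrank_ker (hullMap F c)
  rw [finrank_fintype_fun_eq_card] at h1
  set K := LinearMap.ker (hullMap F c) with hK
  let b := finBasis F K
  let Ψ : (m → Ω) →ₗ[Ω] (Fin (finrank F K) → Ω) :=
    { toFun := fun δ j => ∑ i, algebraMap F Ω ((b j : m → F) i) * δ i
      map_add' := by
        intro v w; funext j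
        simp only [Pi.add_apply, mul_add, Finset.sum_add_distrib]
      map_smul' := by
        intro a v; funext j
        simp only [Pi.smul_apply, smul_eq_mul, RingHom.id_apply, Finset.mul_sum]
        refine Finset.sum_congr rfl fun i _ => ?_
        ring }
  have h2 := LinearMap.finrank_range_add_finrank_ker Ψ
  rw [finrank_fintype_fun_eq_card] at h2
  have h3 : finrank Ω (LinearMap.range Ψ) ≤ finrank F K := by
    refine (Submodule.finrank_le _).trans ?_
    rw [finrank_fintype_fun_eq_card, Fintype.card_fin]
  have h4 : LinearMap.ker Ψ ≤ Hull F c := by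
    intro δ hδ
    rw [LinearMap.mem_ker] at hδ
    rw [mem_Hull]
    intro r hr
    have hrK : r ∈ K := (mem_ker_hullMap F).2 hr
    have hrep : (⟨r, hrK⟩ : K) = ∑ j, b.repr ⟨r, hrK⟩ j • b j := (b.sum_repr _).symm
    have hr2 : ∀ i, r i = ∑ j, b.repr ⟨r, hrK⟩ j * (b j : m → F) i := by
      intro i
      have := congrFun (congrArg Subtype.val hrep) i
      rw [Submodule.coe_sum, Finset.sum_apply] at this
      exact this
    have : ∑ i, algebraMap F Ω (r i) * δ i =
        ∑ j, algebraMap F Ω (b.repr ⟨r, hrK⟩ j) *
          ∑ i, algebraMap F Ω ((b j : m → F) i) * δ i := by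
      simp only [Finset.mul_sum]
      rw [Finset.sum_comm]
      refine Finset.sum_congr rfl fun i _ => ?_
      rw [hr2 i, map_sum, Finset.sum_mul]
      refine Finset.sum_congr rfl fun j _ => ?_
      rw [map_mul, mul_assoc]
    rw [this]
    refine Finset.sum_eq_zero fun j _ => ?_
    have := congrFun hδ j
    change ∑ i, algebraMap F Ω ((b j : m → F) i) * δ i = 0 at this
    rw [this, mul_zero]
  have h5 := Submodule.finrank_mono h4
  omega

/-- A subfamily `c B` with at most `finrank (Hull F c)` elements generates everything. -/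
theorem exists_basis_of_Hull (c : m → Ω) : ∃ B : Finset m, B.card ≤ finrank Ω (Hull F c) ∧
    ∀ i, c i ∈ Submodule.span F (insert 1 (c '' B)) := by
  classical
  let q := Submodule.mkQ (Submodule.span F ({1} : Set Ω))
  obtain ⟨B, hBs, hBspan, hBli⟩ := exists_linearIndependent F (Set.range fun i => q (c i))
  have hfin : B.Finite := (Set.finite_range _).subset hBs
  have hrange : LinearMap.range (hullMap F c) = Submodule.span F (Set.range fun i => q (c i)) := by
    rw [hullMap, LinearMap.range_comp, Fintype.range_linearCombination, Submodule.map_span]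
    congr 1
    ext z
    simp [q]
  -- choose preimages
  have hpre : ∀ z : B, ∃ i, q (c i) = z.1 := fun z => hBs z.2
  choose f hf using hpre
  have hFB : Fintype B := hfin.fintype
  refine ⟨Finset.univ.image f, ?_, ?_⟩
  · refine Finset.card_image_le.trans ?_
    refine le_trans ?_ (finrank_range_le F c)
    rw [hrange, ← hBspan]
    have := finrank_span_set_eq_card (R := F) (s := B) hBli
    rw [this, Set.toFinset_card]
    exact le_of_eq (Finset.card_univ)
  · intro i
    have h1 : q (c i) ∈ Submodule.span F B := by
      rw [hBspan]; exact Submodule.subset_span ⟨i, rfl⟩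
    have h2 : Submodule.span F B ≤
        (Submodule.span F (insert 1 (c '' (Finset.univ.image f : Finset m)))).map q := by
      rw [Submodule.span_le]
      intro z hz
      rw [SetLike.mem_coe, Submodule.mem_map]
      refine ⟨c (f ⟨z, hz⟩), Submodule.subset_span (Set.mem_insert_of_mem _
        ⟨f ⟨z, hz⟩, ?_, rfl⟩), hf ⟨z, hz⟩⟩
      simp
    obtain ⟨w, hw, hw2⟩ := h2 h1
    have h3 : c i - w ∈ Submodule.span F ({1} : Set Ω) := by
      rw [← Submodule.Quotient.mk_eq_zero, Submodule.Quotient.mk_sub]
      have : (Submodule.Quotient.mk w : Ω ⧸ Submodule.span F ({1} : Set Ω)) =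
          Submodule.Quotient.mk (c i) := hw2
      rw [this, sub_self]
    have h4 : c i = w + (c i - w) := by ring
    rw [h4]
    refine Submodule.add_mem _ hw (Submodule.span_mono ?_ h3)
    intro z hz
    rw [Set.mem_singleton_iff] at hz
    rw [hz]; exact Set.mem_insert _ _

end Pool.Agent.Lib.MP_0c183c_co_P9T
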