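import Pool.Agent.Lib.MP_0c183c_co_P9T.Dir
import Pool.Agent.Lib.MP_0c183c_co_P9T.Hull

set_option autoImplicit false

/-!
# Row vectors in the tangent space (P9, (3.1), (3.2))
-/

namespace Pool.Agent.Lib.MP_0c183c_co_P9T

open MvPolynomial

section base

variable {k F Ω : Type*} [CommRing k] [CommRing F] [CommRing Ω] [Algebra k F] [Algebra F Ω]
  [Algebra k Ω] [IsScalarTower k F Ω]

theorem dd_algebraMap {s : Type*} (x v : s → F) (p : MvPolynomial s k) :
    dd k (fun i => algebraMap F Ω (x i)) (fun i => algebraMap F Ω (v i)) p =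
      algebraMap F Ω (dd k x v p) := by
  induction p using MvPolynomial.induction_on with
  | C a => simp [dd, TrivSqZeroExt.algebraMap_eq_inl']
  | add p q hp hq =>
    simp only [dd, map_add, TrivSqZeroExt.snd_add] at hp hq ⊢
    rw [hp, hq]
  | mul_X p i hp =>
    have h1 : aeval (fun i => algebraMap F Ω (x i)) p = algebraMap F Ω (aeval x p) :=
      MvPolynomial.aeval_algebraMap_apply Ω x p
    simp only [dd, map_mul, aeval_X, TrivSqZeroExt.snd_mul, fst_aeval_dual] at hp ⊢
    rw [hp, h1]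
    simp only [dual, TrivSqZeroExt.snd_add, TrivSqZeroExt.snd_inl, TrivSqZeroExt.snd_inr,
      TrivSqZeroExt.fst_add, TrivSqZeroExt.fst_inl, TrivSqZeroExt.fst_inr, zero_add, add_zero,
      smul_eq_mul, MulOpposite.smul_eq_mul_unop, MulOpposite.unop_op, map_add, map_mul]

end base

variable {ι : Type*} [DecidableEq ι]

variable {k Ω : Type*} [CommRing k] [Field Ω] [Algebra k Ω]

/-- The vector `row a: δ J P_b.` (symmetric, zero outside the row and column of `a`). -/
def rowv (M : ι × Bool → ι × Bool → Ω) (b a : ι) (δ : Bool × Bool → Ω) :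
    ι × Bool → ι × Bool → Ω :=
  fun x y =>
    if x.1 = a then
      (if y.1 = a then 0
        else δ (x.2, false) * M (b, true) y + δ (x.2, true) * M (b, false) y)
    else
      (if y.1 = a then δ (y.2, false) * M x (b, true) + δ (y.2, true) * M x (b, false) else 0)

/-- `rowv` as a linear map. -/
def rowL (B : Set (Pr ι)) (M : ι × Bool → ι × Bool → Ω) (b a : ι) :
    (Bool × Bool → Ω) →ₗ[Ω] (B → Ω) where
  toFun δ := fam B (rowv M b a δ)
  map_add' := by
    intro δ δ'
    funext i
    simp only [fam, rowv, Pi.add_apply]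
    split_ifs <;> ring
  map_smul' := by
    intro c δ
    funext i
    simp only [fam, rowv, Pi.smul_apply, smul_eq_mul, RingHom.id_apply]
    split_ifs <;> ring

theorem rowL_apply (B : Set (Pr ι)) (M : ι × Bool → ι × Bool → Ω) (b a : ι)
    (δ : Bool × Bool → Ω) : rowL B M b a δ = fam B (rowv M b a δ) := rfl

/-- The directions `δ` at the block `a b` for which `row a: δ J P_b.` is tangent. -/
noncomputable def Dab (k : Type*) [CommRing k] [Algebra k Ω] (B : Set (Pr ι))
    (M : ι × Bool → ι × Bool → Ω) (a b : ι) : Submodule Ω (Bool × Bool → Ω) :=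
  (Tan k (fam B M)).comap (rowL B M b a)

theorem mem_Dab {B : Set (Pr ι)} {M : ι × Bool → ι × Bool → Ω} {a b : ι}
    {δ : Bool × Bool → Ω} :
    δ ∈ Dab k B M a b ↔ fam B (rowv M b a δ) ∈ Tan k (fam B M) := Iff.rfl

/-- The part of the direction of the absorption which does not meet `a`. -/
def restdir (M : ι × Bool → ι × Bool → Ω) (b a : ι) : ι × Bool → ι × Bool → Ω :=
  fun x y => if x.1 = a ∨ y.1 = a then 0 else absdir M b x y

/-- Decomposition of the direction of the absorption. -/
theorem absdir_eq (M : ι × Bool → ι × Bool → Ω) (hM : ∀ x y, M x y = M y x) (b a : ι)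
    (B : Set (Pr ι)) (hB : ∀ p ∈ B, ¬ (p.1.1 = a ∧ p.2.1 = a)) :
    fam B (absdir M b) =
      fam B (restdir M b a) + fam B (rowv M b a fun q => M (a, q.1) (b, q.2)) := by
  funext i
  have hi := hB i.1 i.2
  simp only [fam, Pi.add_apply, restdir, rowv, absdir]
  by_cases h1 : i.1.1.1 = a
  · have h2 : i.1.2.1 ≠ a := fun h => hi ⟨h1, h⟩
    rw [if_pos (Or.inl h1), if_pos h1, if_neg h2, zero_add]
    have e : i.1.1 = (a, i.1.1.2) := Prod.ext h1 rfl
    rw [← e]
  · by_cases h2 : i.1.2.1 = a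
    · rw [if_pos (Or.inr h2), if_neg h1, if_pos h2, zero_add]
      have e : i.1.2 = (a, i.1.2.2) := Prod.ext h2 rfl
      rw [← e, hM (b, true) i.1.2, hM (b, false) i.1.2]
      ring
    · rw [if_neg (by tauto), if_neg h1, if_neg h2, add_zero]

/-- (3.2), linear part: every `F`-rational linear condition on the block `a b` is inherited; the
hull is contained in `Dab`. -/
theorem hull_le_Dab {F : Type*} [Field F] [Algebra k F] [Algebra F Ω] [IsScalarTower k F Ω]
    (M : ι × Bool → ι × Bool → Ω) (hM : ∀ x y, M x y = M y x) (a b : ι)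
    (B : Set (Pr ι)) (hB : ∀ p ∈ B, ¬ (p.1.1 = a ∧ p.2.1 = a))
    (hF : ∀ p ∈ B, M p.1 p.2 ∈ Set.range (algebraMap F Ω))
    (hF1 : ∀ p ∈ B, p.1.1 ≠ a → ∀ β, M p.1 (b, β) ∈ Set.range (algebraMap F Ω))
    (hF2 : ∀ p ∈ B, p.2.1 ≠ a → ∀ β, M (b, β) p.2 ∈ Set.range (algebraMap F Ω))
    (hT : fam B (absdir M b) ∈ Tan k (fam B M)) :
    Hull F (fun q : Bool × Bool => M (a, q.1) (b, q.2)) ≤ Dab k B M a b := by
  classical
  intro δ hδ
  rw [mem_Dab, mem_Tan]
  intro p hp
  -- lifts to `F`
  choose! x' hx' using fun i : B => hF i.1 i.2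
  have hx : fam B M = fun i => algebraMap F Ω (x' i) := by
    funext i; exact (hx' i).symm
  -- a vector with `F`-rational entries has an `F`-rational derivative
  have key : ∀ v : B → Ω, (∀ i, v i ∈ Set.range (algebraMap F Ω)) →
      dd k (fam B M) v p ∈ Set.range (algebraMap F Ω) := by
    intro v hv
    choose v' hv' using hv
    refine ⟨dd k x' v' p, ?_⟩
    rw [← dd_algebraMap, hx]
    congr 1
    funext i; exact hv' i
  have hzero : (0 : Ω) ∈ Set.range (algebraMap F Ω) := ⟨0, map_zero _⟩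
  have hadd : ∀ {z w : Ω}, z ∈ Set.range (algebraMap F Ω) → w ∈ Set.range (algebraMap F Ω) →
      z + w ∈ Set.range (algebraMap F Ω) := by
    rintro _ _ ⟨z, rfl⟩ ⟨w, rfl⟩
    exact ⟨z + w, map_add _ _ _⟩
  have hmul : ∀ {z w : Ω}, z ∈ Set.range (algebraMap F Ω) → w ∈ Set.range (algebraMap F Ω) →
      z * w ∈ Set.range (algebraMap F Ω) := by
    rintro _ _ ⟨z, rfl⟩ ⟨w, rfl⟩
    exact ⟨z * w, map_mul _ _ _⟩
  have h0 : dd k (fam B M) (fam B (restdir M b a)) p ∈ Set.range (algebraMap F Ω) := by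
    refine key _ fun i => ?_
    simp only [fam, restdir]
    split_ifs with h
    · exact hzero
    · push Not at h
      exact hadd (hmul (hF1 _ i.2 h.1 _) (hF2 _ i.2 h.2 _))
        (hmul (hF1 _ i.2 h.1 _) (hF2 _ i.2 h.2 _))
  have hrow : ∀ q : Bool × Bool,
      dd k (fam B M) (fam B (rowv M b a (Pi.single q 1))) p ∈ Set.range (algebraMap F Ω) := by
    intro q
    refine key _ fun i => ?_
    have hs : ∀ q' : Bool × Bool, (Pi.single q (1 : Ω) : Bool × Bool → Ω) q' ∈
        Set.range (algebraMap F Ω) := by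
      intro q'
      by_cases h : q' = q
      · subst h; rw [Pi.single_eq_same]; exact ⟨1, map_one _⟩
      · rw [Pi.single_eq_of_ne h]; exact hzero
    simp only [fam, rowv]
    split_ifs with h1 h2 h2
    · exact hzero
    · exact hadd (hmul (hs _) (hF2 _ i.2 h2 _)) (hmul (hs _) (hF2 _ i.2 h2 _))
    · exact hadd (hmul (hs _) (hF1 _ i.2 h1 _)) (hmul (hs _) (hF1 _ i.2 h1 _))
    · exact hzero
  choose r hr using hrow
  have hlin : ∀ ε : Bool × Bool → Ω, dd k (fam B M) (fam B (rowv M b a ε)) p =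
      ∑ q, algebraMap F Ω (r q) * ε q := by
    intro ε
    have e1 : ε = ∑ q, ε q • (Pi.single q (1 : Ω) : Bool × Bool → Ω) := by
      funext q
      rw [Finset.sum_apply]
      simp [Pi.single_apply]
    let L : (B → Ω) →ₗ[Ω] Ω :=
      { toFun := fun v => dd k (fam B M) v p
        map_add' := fun v w => dd_add k _ v w p
        map_smul' := fun c v => dd_smul k _ v c p }
    have e2 : dd k (fam B M) (fam B (rowv M b a ε)) p = (L.comp (rowL B M b a)) ε := rfl
    rw [e2]
    conv_lhs => rw [e1]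
    rw [map_sum]
    refine Finset.sum_congr rfl fun q _ => ?_
    rw [map_smul, smul_eq_mul, mul_comm]
    congr 1
    exact (hr q).symm
  have h1 : dd k (fam B M) (fam B (absdir M b)) p = 0 := hT p hp
  rw [absdir_eq M hM b a B hB, dd_add, hlin] at h1
  rw [hlin]
  refine hδ r ?_
  obtain ⟨z, hz⟩ := h0
  refine ⟨-z, ?_⟩
  rw [map_neg, hz]
  linear_combination -h1

end Pool.Agent.Lib.MP_0c183c_co_P9T
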