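import Pool.Agent.Lib.MP_0c183c_co_P9T.Hull

set_option autoImplicit false

/-!
# Rational solutions span (P9, (4.1))
-/

namespace Pool.Agent.Lib.MP_0c183c_co_P9T

open Module

variable {F Ω : Type*} [Field F] [Field Ω] [Algebra F Ω]

/-- A linear form which kills the `F`-rational solutions of a linear system over `F` kills all
solutions. -/
theorem rational_span {m n : Type*} [Fintype n] (A : m → n → F) (κ : n → Ω)
    (h : ∀ i, ∑ j, algebraMap F Ω (A i j) * κ j = 0) (φ : (n → Ω) →ₗ[Ω] Ω)
    (hφ : ∀ κ' : n → F, (∀ i, ∑ j, A i j * κ' j = 0) → φ (fun j => algebraMap F Ω (κ' j)) = 0) :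
    φ κ = 0 := by
  classical
  let b := Basis.ofVectorSpace F Ω
  let s : Finset (Basis.ofVectorSpaceIndex F Ω) := Finset.univ.biUnion fun j => (b.repr (κ j)).support
  have hk : ∀ j, κ j = ∑ l ∈ s, b.repr (κ j) l • b l := by
    intro j
    conv_lhs => rw [← b.linearCombination_repr (κ j)]
    rw [Finsupp.linearCombination_apply, Finsupp.sum]
    refine Finset.sum_subset ?_ ?_
    · intro l hl
      exact Finset.mem_biUnion.2 ⟨j, Finset.mem_univ _, hl⟩
    · intro l _ hl
      rw [Finsupp.notMem_support_iff.1 hl, zero_smul]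
  have hker : ∀ l, ∀ i, ∑ j, A i j * b.repr (κ j) l = 0 := by
    intro l i
    have h1 : b.repr (∑ j, algebraMap F Ω (A i j) * κ j) l = 0 := by
      rw [h i, map_zero]; rfl
    rw [map_sum, Finsupp.finsetSum_apply] at h1
    rw [← h1]
    refine Finset.sum_congr rfl fun j _ => ?_
    rw [← Algebra.smul_def, map_smul, Finsupp.smul_apply, smul_eq_mul]
  have e : κ = ∑ l ∈ s, b l • (fun j => algebraMap F Ω (b.repr (κ j) l)) := by
    funext j
    rw [Finset.sum_apply, hk j]
    refine Finset.sum_congr rfl fun l _ => ?_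
    rw [Pi.smul_apply, smul_eq_mul, Algebra.smul_def, mul_comm]
  rw [e, map_sum]
  refine Finset.sum_eq_zero fun l _ => ?_
  rw [map_smul, hφ _ (hker l), smul_zero]

variable {ι : Type*} [DecidableEq ι]

/-- (4.1): a right relation `κ` of the rows `A` (over `F`-rational entries) which extends to the
rows of `a` is killed by every `δ` of the hull of the block `a b`. -/
theorem hull_kills (N : ι × Bool → ι × Bool → Ω) (a b : ι) (A C : Finset (ι × Bool))
    (hb : ∀ β, (b, β) ∈ C) (hF : ∀ x ∈ A, ∀ y ∈ C, N x y ∈ Set.range (algebraMap F Ω))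
    (hFa : ∀ α, ∀ y ∈ C, y.1 ≠ b → N (a, α) y ∈ Set.range (algebraMap F Ω))
    (RE : ∀ κ : ι × Bool → Ω, (∀ x ∈ A, ∑ y ∈ C, N x y * κ y = 0) →
      ∀ α, ∑ y ∈ C, N (a, α) y * κ y = 0)
    (κ : ι × Bool → Ω) (hκ : ∀ x ∈ A, ∑ y ∈ C, N x y * κ y = 0)
    {δ : Bool × Bool → Ω} (hδ : δ ∈ Hull F (fun q : Bool × Bool => N (a, q.1) (b, q.2)))
    (α : Bool) : ∑ β, δ (α, β) * κ (b, β) = 0 := by
  classical
  choose! f hf using hF
  choose! g hg using hFa
  have hsum : ∀ h : ι × Bool → Ω, ∑ y ∈ C, h y = ∑ y : C, h y.1 := fun h =>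
    (Finset.sum_coe_sort C h).symm
  let φ : (C → Ω) →ₗ[Ω] Ω :=
    { toFun := fun κ' => ∑ β, δ (α, β) * κ' ⟨(b, β), hb β⟩
      map_add' := by
        intro v w
        simp only [Pi.add_apply, mul_add, Finset.sum_add_distrib]
      map_smul' := by
        intro c v
        simp only [Pi.smul_apply, smul_eq_mul, RingHom.id_apply, Finset.mul_sum]
        refine Finset.sum_congr rfl fun i _ => ?_
        ring }
  have main := rational_span (F := F) (fun (x : A) (y : C) => f x.1 y.1) (fun y : C => κ y.1) ?_ φ ?_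
  · exact main
  · intro x
    have := hκ x.1 x.2
    rw [hsum] at this
    rw [← this]
    refine Finset.sum_congr rfl fun y _ => ?_
    rw [hf x.1 x.2 y.1 y.2]
  · intro κ' hκ'
    -- extend `κ'` by zero
    let κ₁ : ι × Bool → Ω := fun y => if h : y ∈ C then algebraMap F Ω (κ' ⟨y, h⟩) else 0
    have hκ₁ : ∀ y : C, κ₁ y.1 = algebraMap F Ω (κ' y) := by
      intro y
      simp only [κ₁]
      rw [dif_pos y.2]
    have h1 : ∀ x ∈ A, ∑ y ∈ C, N x y * κ₁ y = 0 := by
      intro x hx
      rw [hsum]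
      have := hκ' ⟨x, hx⟩
      have h2 := congrArg (algebraMap F Ω) this
      rw [map_sum, map_zero] at h2
      rw [← h2]
      refine Finset.sum_congr rfl fun y _ => ?_
      rw [hκ₁, map_mul, hf x hx y.1 y.2]
    have h3 := RE κ₁ h1 α
    -- split the sum
    have hsub : (Finset.univ.image fun β : Bool => (b, β)) ⊆ C := by
      intro y hy
      obtain ⟨β, -, rfl⟩ := Finset.mem_image.1 hy
      exact hb β
    have hinj : ∀ h : ι × Bool → Ω,
        ∑ y ∈ (Finset.univ.image fun β : Bool => (b, β)), h y = ∑ β, h (b, β) := by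
      intro h
      rw [Finset.sum_image]
      intro β _ β' _ hh
      exact (Prod.mk.inj hh).2
    rw [← Finset.sum_sdiff hsub, hinj] at h3
    have h4 : ∑ y ∈ C \ (Finset.univ.image fun β : Bool => (b, β)), N (a, α) y * κ₁ y ∈
        Set.range (algebraMap F Ω) := by
      refine ⟨∑ y ∈ (C \ (Finset.univ.image fun β : Bool => (b, β))).attach,
        g α y.1 * κ' ⟨y.1, (Finset.mem_sdiff.1 y.2).1⟩, ?_⟩
      rw [map_sum, ← Finset.sum_attach (C \ _)]
      refine Finset.sum_congr rfl fun y _ => ?_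
      obtain ⟨hy1, hy2⟩ := Finset.mem_sdiff.1 y.2
      have hyb : y.1.1 ≠ b := by
        intro h
        apply hy2
        rw [Finset.mem_image]
        exact ⟨y.1.2, Finset.mem_univ _, Prod.ext h.symm rfl⟩
      rw [map_mul, hg α y.1 hy1 hyb]
      have := hκ₁ ⟨y.1, hy1⟩
      rw [← this]
    have h5 := hδ (fun q => if q.1 = α then κ' ⟨(b, q.2), hb q.2⟩ else 0) ?_
    · rw [Fintype.sum_prod_type] at h5
      rw [Finset.sum_eq_single α] at h5
      · simp only [if_true] at h5
        change ∑ β, δ (α, β) * algebraMap F Ω (κ' ⟨(b, β), hb β⟩) = 0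
        rw [← h5]
        refine Finset.sum_congr rfl fun β _ => ?_
        rw [mul_comm]
      · intro α' _ hα'
        refine Finset.sum_eq_zero fun β _ => ?_
        simp only [if_neg hα', map_zero, zero_mul]
      · intro h
        exact absurd (Finset.mem_univ _) h
    · obtain ⟨z, hz⟩ := h4
      refine ⟨-z, ?_⟩
      rw [map_neg, hz, Fintype.sum_prod_type, Finset.sum_eq_single α]
      · simp only [if_true]
        have : ∑ β, algebraMap F Ω (κ' ⟨(b, β), hb β⟩) * N (a, α) (b, β) =
            ∑ β, N (a, α) (b, β) * κ₁ (b, β) := by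
          refine Finset.sum_congr rfl fun β _ => ?_
          rw [hκ₁ ⟨(b, β), hb β⟩, mul_comm]
        rw [this]
        linear_combination (-1 : Ω) * h3
      · intro α' _ hα'
        refine Finset.sum_eq_zero fun β _ => ?_
        simp only [if_neg hα', map_zero, zero_mul]
      · intro h
        exact absurd (Finset.mem_univ _) h

/-- The hull of the transposed block. -/
theorem hull_swap {c δ : Bool × Bool → Ω} (h : δ ∈ Hull F c) :
    (δ ∘ Prod.swap) ∈ Hull F (c ∘ Prod.swap) := by
  intro r hr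
  have e : ∀ f : Bool × Bool → Ω, ∑ i, algebraMap F Ω (r i) * (f ∘ Prod.swap) i =
      ∑ i, algebraMap F Ω ((r ∘ Prod.swap) i) * f i := by
    intro f
    refine Fintype.sum_equiv (Equiv.prodComm Bool Bool) _ _ fun i => ?_
    simp [Equiv.prodComm_apply]
  rw [e] at hr ⊢
  exact h _ hr

end Pool.Agent.Lib.MP_0c183c_co_P9T
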