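import Pool.Agent.Lib.MP_0c183c_co_P9T.Row
import Pool.Agent.Lib.MP_0c183c_co_P9T.Rat

set_option autoImplicit false

/-!
# K1, the core (P9, (3.1), (3.2), (4.1)): two arrays `N`, `M` which agree outside the block `a b`
-/

namespace Pool.Agent.Lib.MP_0c183c_co_P9T

open MvPolynomial

variable {ι : Type*} [DecidableEq ι] {k Ω : Type*} [Field k] [Field Ω] [Algebra k Ω]

/-- The index set of all blocks over `J + a + b`. -/
abbrev UU (J : Finset ι) (a b : ι) : Set (Pr ι) := off (insert a (insert b J))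

/-- The index set of all blocks over `J + a + b` except the block `a b`. -/
abbrev SS (J : Finset ι) (a b : ι) : Set (Pr ι) := UU J a b \ blk a b

/-- The field of the known data. -/
noncomputable abbrev FF (k : Type*) [Field k] [Algebra k Ω] (J : Finset ι) (a b : ι)
    (M : ι × Bool → ι × Bool → Ω) : IntermediateField k Ω :=
  IntermediateField.adjoin k (Set.range (fam (SS J a b) M))

/-- The block `a b`. -/
def bk {R : Type*} (N : ι × Bool → ι × Bool → R) (a b : ι) : Bool × Bool → R :=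
  fun q => N (a, q.1) (b, q.2)

theorem mem_FF {J : Finset ι} {a b : ι} {M : ι × Bool → ι × Bool → Ω} {p : Pr ι}
    (hp : p ∈ SS J a b) :
    M p.1 p.2 ∈ Set.range (algebraMap (FF k J a b M) Ω) :=
  ⟨⟨M p.1 p.2, IntermediateField.subset_adjoin k _ ⟨⟨p, hp⟩, rfl⟩⟩, rfl⟩

theorem mem_SS_of_off {J : Finset ι} {a b : ι} (hab : a ≠ b) (hb : b ∉ J) {p : Pr ι}
    (hp : p ∈ off (insert a J)) : p ∈ SS J a b := by
  obtain ⟨h1, h2, h3⟩ := hp
  have e1 : p.1.1 ≠ b := by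
    rintro h
    rw [h, Finset.mem_insert] at h1
    rcases h1 with h1 | h1
    · exact hab h1.symm
    · exact hb h1
  have e2 : p.2.1 ≠ b := by
    rintro h
    rw [h, Finset.mem_insert] at h2
    rcases h2 with h2 | h2
    · exact hab h2.symm
    · exact hb h2
  refine ⟨⟨?_, ?_, h3⟩, ?_⟩
  · rw [Finset.mem_insert] at h1 ⊢
    rcases h1 with h1 | h1
    · exact Or.inl h1
    · exact Or.inr (Finset.mem_insert_of_mem h1)
  · rw [Finset.mem_insert] at h2 ⊢
    rcases h2 with h2 | h2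
    · exact Or.inl h2
    · exact Or.inr (Finset.mem_insert_of_mem h2)
  · rintro (⟨-, h⟩ | ⟨h, -⟩)
    · exact e2 h
    · exact e1 h

theorem mem_SS_right {J : Finset ι} {a b : ι} (hab : a ≠ b) (hb : b ∉ J) {y : ι × Bool}
    (hy : y.1 ∈ insert a J) (hya : y.1 ≠ a) (β : Bool) : (((b, β), y) : Pr ι) ∈ SS J a b := by
  have hyJ : y.1 ∈ J := (Finset.mem_insert.1 hy).resolve_left hya
  refine ⟨⟨?_, ?_, ?_⟩, ?_⟩
  · exact Finset.mem_insert_of_mem (Finset.mem_insert_self _ _)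
  · exact Finset.mem_insert_of_mem (Finset.mem_insert_of_mem hyJ)
  · rintro (h : b = y.1)
    rw [← h] at hyJ; exact hb hyJ
  · rintro (⟨h, -⟩ | ⟨-, h⟩)
    · exact hab h.symm
    · exact hya h

theorem mem_SS_left {J : Finset ι} {a b : ι} (hab : a ≠ b) (hb : b ∉ J) {x : ι × Bool}
    (hx : x.1 ∈ insert a J) (hxa : x.1 ≠ a) (β : Bool) : ((x, (b, β)) : Pr ι) ∈ SS J a b := by
  have h := mem_SS_right hab hb hx hxa β
  obtain ⟨⟨h1, h2, h3⟩, h4⟩ := h
  refine ⟨⟨h2, h1, h3.symm⟩, ?_⟩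
  rintro (⟨h, h'⟩ | ⟨h, h'⟩)
  · exact h4 (Or.inr ⟨h', h⟩)
  · exact h4 (Or.inl ⟨h', h⟩)

/-- (3.2): the hull of the near block is contained in `Dab` of the far array. -/
theorem hull_le_Dab' (N M : ι × Bool → ι × Bool → Ω) (hN : ∀ x y, N x y = N y x)
    (J : Finset ι) (a b : ι) (hab : a ≠ b) (hb : b ∉ J)
    (hS : ∀ p ∈ SS J a b, N p.1 p.2 = M p.1 p.2)
    (hT : fam (off (insert a J)) (absdir N b) ∈ Tan k (fam (off (insert a J)) N)) :
    Hull (FF k J a b M) (bk N a b) ≤ Dab k (off (insert a J)) M a b := by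
  have h1 := hull_le_Dab (F := FF k J a b M) (k := k) N hN a b (off (insert a J)) ?_ ?_ ?_ ?_ hT
  · refine h1.trans ?_
    intro δ hδ
    rw [mem_Dab] at hδ ⊢
    have e1 : fam (off (insert a J)) N = fam (off (insert a J)) M := by
      funext p
      exact hS p.1 (mem_SS_of_off hab hb p.2)
    have e2 : fam (off (insert a J)) (rowv N b a δ) = fam (off (insert a J)) (rowv M b a δ) := by
      funext p
      simp only [fam, rowv]
      by_cases h1 : p.1.1.1 = a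
      · by_cases h2 : p.1.2.1 = a
        · rw [if_pos h1, if_pos h2, if_pos h1, if_pos h2]
        · rw [if_pos h1, if_neg h2, if_pos h1, if_neg h2]
          have e : ∀ β, N (b, β) p.1.2 = M (b, β) p.1.2 := fun β =>
            hS _ (mem_SS_right hab hb p.2.2.1 h2 β)
          rw [e, e]
      · by_cases h2 : p.1.2.1 = a
        · rw [if_neg h1, if_pos h2, if_neg h1, if_pos h2]
          have e : ∀ β, N p.1.1 (b, β) = M p.1.1 (b, β) := fun β =>
            hS _ (mem_SS_left hab hb p.2.1 h1 β)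
          rw [e, e]
        · rw [if_neg h1, if_neg h2, if_neg h1, if_neg h2]
    rw [← e1, ← e2]
    exact hδ
  · rintro p hp ⟨h1, h2⟩
    exact hp.2.2 (h1.trans h2.symm)
  · intro p hp
    rw [hS p (mem_SS_of_off hab hb hp)]
    exact mem_FF (mem_SS_of_off hab hb hp)
  · intro p hp hpa β
    have hm := mem_SS_left hab hb hp.1 hpa β
    rw [hS _ hm]
    exact mem_FF hm
  · intro p hp hpa β
    have hm := mem_SS_right hab hb hp.2.1 hpa β
    rw [hS _ hm]
    exact mem_FF hm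

/-- (4.1) right relations. -/
theorem hull_right (N M : ι × Bool → ι × Bool → Ω)
    (J : Finset ι) (a b : ι) (hab : a ≠ b) (ha : a ∉ J) (hb : b ∉ J)
    (hS : ∀ p ∈ SS J a b, N p.1 p.2 = M p.1 p.2)
    (A C : Finset (ι × Bool)) (hbC : ∀ β, (b, β) ∈ C) (hA : ∀ x ∈ A, x.1 ∈ J)
    (hC : ∀ y ∈ C, y.1 ∈ insert b J) (hAC : ∀ x ∈ A, ∀ y ∈ C, x.1 ≠ y.1)
    (RE : ∀ κ : ι × Bool → Ω, (∀ x ∈ A, ∑ y ∈ C, N x y * κ y = 0) →
      ∀ α, ∑ y ∈ C, N (a, α) y * κ y = 0)
    (κ : ι × Bool → Ω) (hκ : ∀ x ∈ A, ∑ y ∈ C, M x y * κ y = 0)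
    {δ : Bool × Bool → Ω} (hδ : δ ∈ Hull (FF k J a b M) (bk N a b)) (α : Bool) :
    ∑ β, δ (α, β) * κ (b, β) = 0 := by
  have hm : ∀ x ∈ A, ∀ y ∈ C, ((x, y) : Pr ι) ∈ SS J a b := by
    intro x hx y hy
    have hxJ := hA x hx
    refine ⟨⟨Finset.mem_insert_of_mem (Finset.mem_insert_of_mem hxJ),
      Finset.mem_insert_of_mem (hC y hy), hAC x hx y hy⟩, ?_⟩
    rintro (⟨h, -⟩ | ⟨h, -⟩)
    · change x.1 = a at h
      rw [h] at hxJ; exact ha hxJ
    · change x.1 = b at h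
      rw [h] at hxJ; exact hb hxJ
  have hma : ∀ α, ∀ y ∈ C, y.1 ≠ b → (((a, α), y) : Pr ι) ∈ SS J a b := by
    intro α y hy hyb
    have hyJ : y.1 ∈ J := (Finset.mem_insert.1 (hC y hy)).resolve_left hyb
    refine ⟨⟨Finset.mem_insert_self _ _, Finset.mem_insert_of_mem (hC y hy), ?_⟩, ?_⟩
    · rintro (h : a = y.1)
      rw [← h] at hyJ; exact ha hyJ
    · rintro (⟨-, h⟩ | ⟨h, -⟩)
      · exact hyb h
      · exact hab h
  refine hull_kills (F := FF k J a b M) N a b A C hbC ?_ ?_ RE κ ?_ hδ α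
  · intro x hx y hy
    have := hm x hx y hy
    rw [hS (x, y) this]
    exact mem_FF this
  · intro α y hy hyb
    have := hma α y hy hyb
    rw [hS ((a, α), y) this]
    exact mem_FF this
  · intro x hx
    rw [← hκ x hx]
    refine Finset.sum_congr rfl fun y hy => ?_
    rw [hS (x, y) (hm x hx y hy)]

theorem blk_comm (a b : ι) : blk a b = blk b a := by
  ext p
  constructor
  · rintro (⟨h1, h2⟩ | ⟨h1, h2⟩)
    · exact Or.inr ⟨h1, h2⟩
    · exact Or.inl ⟨h1, h2⟩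
  · rintro (⟨h1, h2⟩ | ⟨h1, h2⟩)
    · exact Or.inr ⟨h1, h2⟩
    · exact Or.inl ⟨h1, h2⟩

theorem SS_comm (J : Finset ι) (a b : ι) : SS J a b = SS J b a := by
  rw [SS, SS, UU, UU, blk_comm, Finset.insert_comm]

/-- (4.1) left relations. -/
theorem hull_left (N M : ι × Bool → ι × Bool → Ω) (hN : ∀ x y, N x y = N y x)
    (hM : ∀ x y, M x y = M y x)
    (J : Finset ι) (a b : ι) (hab : a ≠ b) (ha : a ∉ J) (hb : b ∉ J)
    (hS : ∀ p ∈ SS J a b, N p.1 p.2 = M p.1 p.2)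
    (A C : Finset (ι × Bool)) (haA : ∀ α, (a, α) ∈ A) (hA : ∀ x ∈ A, x.1 ∈ insert a J)
    (hC : ∀ y ∈ C, y.1 ∈ J) (hAC : ∀ x ∈ A, ∀ y ∈ C, x.1 ≠ y.1)
    (RE : ∀ l : ι × Bool → Ω, (∀ y ∈ C, ∑ x ∈ A, l x * N x y = 0) →
      ∀ β, ∑ x ∈ A, l x * N x (b, β) = 0)
    (l : ι × Bool → Ω) (hl : ∀ y ∈ C, ∑ x ∈ A, l x * M x y = 0)
    {δ : Bool × Bool → Ω} (hδ : δ ∈ Hull (FF k J a b M) (bk N a b)) (β : Bool) :
    ∑ α, l (a, α) * δ (α, β) = 0 := by
  have hδ' := hull_swap hδ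
  have e1 : (bk N a b) ∘ Prod.swap = bk N b a := by
    funext q
    exact hN _ _
  rw [e1] at hδ'
  have h2 : ∀ F : IntermediateField k Ω, F = FF k J b a M →
      (δ ∘ Prod.swap) ∈ Hull F (bk N b a) →
      (δ ∘ Prod.swap) ∈ Hull (FF k J b a M) (bk N b a) := by
    rintro F rfl h
    exact h
  have h3 := h2 (FF k J a b M) (by rw [FF, FF, SS_comm]) hδ'
  have h4 := hull_right (k := k) N M J b a hab.symm hb ha
    (fun p hp => hS p (by rw [SS_comm]; exact hp)) C A haA hC hA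
    (fun x hx y hy => (hAC y hy x hx).symm) ?_ l ?_ h3 β
  · rw [← h4]
    refine Finset.sum_congr rfl fun α _ => ?_
    rw [mul_comm]; rfl
  · intro κ hκ α
    rw [← RE κ ?_ α]
    · refine Finset.sum_congr rfl fun x _ => ?_
      rw [hN, mul_comm]
    · intro y hy
      rw [← hκ y hy]
      refine Finset.sum_congr rfl fun x _ => ?_
      rw [hN, mul_comm]
  · intro y hy
    rw [← hl y hy]
    refine Finset.sum_congr rfl fun x _ => ?_
    rw [hM, mul_comm]

end Pool.Agent.Lib.MP_0c183c_co_P9T
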