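import Pool.Agent.Lib.MP_0c183c_co_P9T.Absorb

set_option autoImplicit false

/-!
# The direction of an absorption is tangent (P9, (3.1))
-/

namespace Pool.Agent.Lib.MP_0c183c_co_P9T

open MvPolynomial

variable {ι : Type*}

variable {k Ω : Type*} [CommRing k] [CommRing Ω] [Algebra k Ω]

theorem absb_zero (M : ι × Bool → ι × Bool → Ω) (b : ι) : absb M b 0 = M := by
  funext x y; simp [absb]

theorem marr_self (M : ι × Bool → ι × Bool → Ω) : marr Ω M = M := rfl

/-- Deletion is a specialisation of absorption. -/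
theorem sp_delete (M : ι × Bool → ι × Bool → Ω) (T : Finset ι) (b : ι) (hb : b ∈ T)
    (B : Set (Pr ι)) (hB : B ⊆ allp T) (t : Ω)
    (ht : Transcendental (Algebra.adjoin k (ents T M)) t) :
    Sp k (fam B (absb M b t)) (fam B M) := by
  have h := sp_absb (S := Ω) M T b hb B hB t ht (0 : Ω)
  rwa [marr_self, absb_zero] at h

/-- The absorption at `ε` is `M + ε * absdir`. -/
theorem fam_absb_eps (M : ι × Bool → ι × Bool → Ω) (b : ι) (B : Set (Pr ι)) :
    fam B (absb (marr (TrivSqZeroExt Ω Ω) M) b (TrivSqZeroExt.inr 1)) =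
      dual (fam B M) (fam B (absdir M b)) := by
  funext i
  refine TrivSqZeroExt.ext ?_ ?_
  · simp [fam, absb, marr, dual, TrivSqZeroExt.algebraMap_eq_inl]
  · simp [fam, absb, marr, dual, absdir, TrivSqZeroExt.algebraMap_eq_inl]

/-- (D): if the ideal does not change under the absorption, the direction is tangent. -/
theorem absdir_mem_Tan (M : ι × Bool → ι × Bool → Ω) (T : Finset ι) (b : ι) (hb : b ∈ T)
    (B : Set (Pr ι)) (hB : B ⊆ allp T) (t : Ω)
    (ht : Transcendental (Algebra.adjoin k (ents T M)) t)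
    (h : Sp k (fam B M) (fam B (absb M b t))) :
    fam B (absdir M b) ∈ Tan k (fam B M) := by
  rw [mem_Tan_iff_Sp, ← fam_absb_eps]
  exact h.trans (sp_absb M T b hb B hB t ht _)

end Pool.Agent.Lib.MP_0c183c_co_P9T
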