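import Pool.Agent.Lib.MP_0c183c_co_P9T.Aff

set_option autoImplicit false
set_option linter.unusedSectionVars false

/-!
# Absorption and specialisation of the base point (P9, (S2), (it))
-/

namespace Pool.Agent.Lib.MP_0c183c_co_P9T

open MvPolynomial

variable {ι : Type*} [DecidableEq ι] {k Ω : Type*} [Field k] [Field Ω] [Algebra k Ω]

/-- (H): absorption at a generic parameter specialises to the absorption of every specialisation of
the array at every parameter. -/
theorem sp_absb_of_sp {R : Type*} [CommRing R] [Algebra k R] (N : ι × Bool → ι × Bool → Ω)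
    (M' : ι × Bool → ι × Bool → R) (T : Finset ι) (b : ι) (hb : b ∈ T) (B U : Set (Pr ι))
    (hB : B ⊆ allp T) (hU0 : B ⊆ U) (hU1 : ∀ p ∈ B, ∀ β, (p.1, (b, β)) ∈ U)
    (hU2 : ∀ p ∈ B, ∀ β, ((b, β), p.2) ∈ U) (t : Ω)
    (ht : Transcendental (Algebra.adjoin k (ents T N)) t)
    (hNM : Sp k (fam U N) (fam U M')) (t' : R) :
    Sp k (fam B (absb N b t)) (fam B (absb M' b t')) := by
  intro p hp
  -- the universal polynomial
  let e : B → Polynomial (MvPolynomial U k) := fun i =>
    Polynomial.C (X ⟨i.1, hU0 i.2⟩) + Polynomial.X *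
      (Polynomial.C (X ⟨_, hU1 i.1 i.2 false⟩) * Polynomial.C (X ⟨_, hU2 i.1 i.2 true⟩) +
        Polynomial.C (X ⟨_, hU1 i.1 i.2 true⟩) * Polynomial.C (X ⟨_, hU2 i.1 i.2 false⟩))
  have key : ∀ {S : Type _} [CommRing S] [Algebra k S] (K : ι × Bool → ι × Bool → S),
      Polynomial.mapAlgHom (aeval (fam U K) : MvPolynomial U k →ₐ[k] S)
        (aeval e p : Polynomial (MvPolynomial U k)) =
      aeval (fam B (absb (fun x y => Polynomial.C (K x y)) b Polynomial.X)) p := by
    intro S _ _ K
    rw [← AlgHom.comp_apply, MvPolynomial.comp_aeval]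
    congr 2
    funext i
    simp only [e, map_add, map_mul, Polynomial.coe_mapAlgHom, Polynomial.map_C, Polynomial.map_X,
      fam, absb, RingHom.coe_coe, aeval_X]
  have h0 : (aeval (fam B (absb (fun x y => Polynomial.C (N x y)) b Polynomial.X)) p :
      Polynomial Ω) = 0 :=
    sp_absb (S := Polynomial Ω) N T b hb B hB t ht Polynomial.X p hp
  have h1 : Polynomial.mapAlgHom (aeval (fam U N) : MvPolynomial U k →ₐ[k] Ω)
      (aeval e p : Polynomial (MvPolynomial U k)) = 0 := by
    rw [key N]; exact h0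
  have h2 : Polynomial.mapAlgHom (aeval (fam U M') : MvPolynomial U k →ₐ[k] R)
      (aeval e p : Polynomial (MvPolynomial U k)) = 0 := by
    ext m
    rw [Polynomial.coe_mapAlgHom, Polynomial.coeff_map, Polynomial.coeff_zero]
    refine hNM _ ?_
    have := congrArg (fun q => Polynomial.coeff q m) h1
    simp only [Polynomial.coe_mapAlgHom, Polynomial.coeff_map, Polynomial.coeff_zero] at this
    exact this
  have key' : Polynomial.mapAlgHom (aeval (fam U M') : MvPolynomial U k →ₐ[k] R)
        (aeval e p : Polynomial (MvPolynomial U k)) =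
      aeval (fam B (absb (fun x y => Polynomial.C (M' x y)) b Polynomial.X)) p := by
    rw [← AlgHom.comp_apply, MvPolynomial.comp_aeval]
    congr 2
    funext i
    simp only [e, map_add, map_mul, Polynomial.coe_mapAlgHom, Polynomial.map_C, Polynomial.map_X,
      fam, absb, RingHom.coe_coe, aeval_X]
  rw [key'] at h2
  -- evaluate at `t'`
  have h3 : (Polynomial.aeval t' : Polynomial R →ₐ[R] R).restrictScalars k
      (aeval (fam B (absb (fun x y => Polynomial.C (M' x y)) b Polynomial.X)) p) =
      aeval (fam B (absb M' b t')) p := by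
    rw [← AlgHom.comp_apply, MvPolynomial.comp_aeval]
    congr 2
    funext i
    simp [fam, absb]
  rw [← h3, h2, map_zero]

/-- The absorption of the array with the block moved by `ε δ`. -/
theorem absb_setb_eps (M : ι × Bool → ι × Bool → Ω) (hM : ∀ x y, M x y = M y x) (J : Finset ι)
    (a b : ι) (hab : a ≠ b) (hb : b ∉ J) (t : Ω) (δ : Bool × Bool → Ω) :
    fam (off (insert a J)) (absb (setb M a b (fun q => algebraMap Ω (TrivSqZeroExt Ω Ω)
        (M (a, q.1) (b, q.2)) + TrivSqZeroExt.inr 1 * algebraMap Ω (TrivSqZeroExt Ω Ω) (δ q))) b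
        (TrivSqZeroExt.inl t)) =
      dual (fam (off (insert a J)) (absb M b t))
        (t • fam (off (insert a J)) (rowv M b a δ)) := by
  funext i
  obtain ⟨⟨x, y⟩, hx, hy, hxy⟩ := i
  have hxb : x.1 ≠ b := by
    rintro h
    simp only [h, Finset.mem_insert] at hx
    rcases hx with h | h
    · exact hab h.symm
    · exact hb h
  have hyb : y.1 ≠ b := by
    rintro h
    simp only [h, Finset.mem_insert] at hy
    rcases hy with h | h
    · exact hab h.symm
    · exact hb h
  change x.1 ≠ y.1 at hxy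
  simp only [fam, absb, dual, Pi.smul_apply, smul_eq_mul, setb, rowv]
  by_cases h1 : x.1 = a
  · have h2 : y.1 ≠ a := fun h => hxy (h1.trans h.symm)
    obtain ⟨x1, x2⟩ := x
    subst h1
    refine TrivSqZeroExt.ext ?_ ?_
    · simp [hab, hyb, hab.symm, h2, TrivSqZeroExt.algebraMap_eq_inl]
    · simp [hab, hyb, hab.symm, h2, TrivSqZeroExt.algebraMap_eq_inl]
  · by_cases h2 : y.1 = a
    · obtain ⟨y1, y2⟩ := y
      subst h2
      refine TrivSqZeroExt.ext ?_ ?_
      · simp [hab, hxb, hab.symm, h1, TrivSqZeroExt.algebraMap_eq_inl, hM]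
      · simp [hab, hxb, hab.symm, h1, TrivSqZeroExt.algebraMap_eq_inl]
        ring_nf
        simp
    · refine TrivSqZeroExt.ext ?_ ?_
      · simp [h1, h2, hab.symm, hxb, hyb, TrivSqZeroExt.algebraMap_eq_inl]
      · simp [h1, h2, hab.symm, hxb, hyb, TrivSqZeroExt.algebraMap_eq_inl]

end Pool.Agent.Lib.MP_0c183c_co_P9T
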