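import Pool.Agent.Lib.MP_0c183c_co_P9T.K1

set_option autoImplicit false
set_option linter.unusedSectionVars false

/-!
# K1, main theorem (P9, (3.1), (3.2), (4.1), (S2)): near array `N`, far array `M`
-/

namespace Pool.Agent.Lib.MP_0c183c_co_P9T

open MvPolynomial Pool.Agent.Lib.MP_0c183c_co_P9L

variable {ι : Type*} [DecidableEq ι] {k : Type*} {Ω : Type} [Field k] [Field Ω] [Algebra k Ω]

/-- K1 for arrays which agree outside the block `a b`. -/
theorem K1aux (N M : ι × Bool → ι × Bool → Ω) (hN : ∀ x y, N x y = N y x)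
    (hM : ∀ x y, M x y = M y x) (J : Finset ι) (a b : ι) (hab : a ≠ b) (ha : a ∉ J) (hb : b ∉ J)
    (hS : ∀ p ∈ SS J a b, N p.1 p.2 = M p.1 p.2)
    (hNM : Sp k (fam (UU J a b) N) (fam (UU J a b) M))
    (hT : fam (off (insert a J)) (absdir N b) ∈ Tan k (fam (off (insert a J)) N)) :
    ∃ D : Submodule Ω (Bool × Bool → Ω),
      trd k (Set.range (fam (UU J a b) N)) ≤
        trd k (Set.range (fam (SS J a b) M)) + Module.finrank Ω D ∧
      D ≤ Dab k (off (insert a J)) M a b ∧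
      (∀ A C : Finset (ι × Bool), (∀ β, (b, β) ∈ C) → (∀ x ∈ A, x.1 ∈ J) →
        (∀ y ∈ C, y.1 ∈ insert b J) → (∀ x ∈ A, ∀ y ∈ C, x.1 ≠ y.1) →
        (∀ κ : ι × Bool → Ω, (∀ x ∈ A, ∑ y ∈ C, N x y * κ y = 0) →
          ∀ α, ∑ y ∈ C, N (a, α) y * κ y = 0) →
        ∀ κ : ι × Bool → Ω, (∀ x ∈ A, ∑ y ∈ C, M x y * κ y = 0) →
          ∀ δ ∈ D, ∀ α, ∑ β, δ (α, β) * κ (b, β) = 0) ∧
      (∀ A C : Finset (ι × Bool), (∀ α, (a, α) ∈ A) → (∀ x ∈ A, x.1 ∈ insert a J) →
        (∀ y ∈ C, y.1 ∈ J) → (∀ x ∈ A, ∀ y ∈ C, x.1 ≠ y.1) →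
        (∀ l : ι × Bool → Ω, (∀ y ∈ C, ∑ x ∈ A, l x * N x y = 0) →
          ∀ β, ∑ x ∈ A, l x * N x (b, β) = 0) →
        ∀ l : ι × Bool → Ω, (∀ y ∈ C, ∑ x ∈ A, l x * M x y = 0) →
          ∀ δ ∈ D, ∀ β, ∑ α, l (a, α) * δ (α, β) = 0) ∧
      (trd k (Set.range (fam (SS J a b) M)) + Module.finrank Ω D ≤
          trd k (Set.range (fam (UU J a b) N)) →
        ∀ (R : Type) [CommRing R] [Algebra Ω R] [Algebra k R] [IsScalarTower k Ω R] (s : R),
          ∀ δ ∈ D, Sp k (fam (UU J a b) N)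
            (fam (UU J a b) (setb M a b
              (fun q => algebraMap Ω R (M (a, q.1) (b, q.2)) + s * algebraMap Ω R (δ q))))) := by
  classical
  refine ⟨Hull (FF k J a b M) (bk N a b), ?_, hull_le_Dab' N M hN J a b hab hb hS hT, ?_, ?_, ?_⟩
  · obtain ⟨T, hTc, hspan⟩ := exists_basis_of_Hull (FF k J a b M) (bk N a b)
    refine (trd_UU_le N M hN J a b hS T fun q => isAlgebraic_of_span N M J a b T (hspan q)).trans ?_
    exact Nat.add_le_add_left hTc _
  · intro A C h1 h2 h3 h4 RE κ hκ δ hδ α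
    exact hull_right N M J a b hab ha hb hS A C h1 h2 h3 h4 RE κ hκ hδ α
  · intro A C h1 h2 h3 h4 RE l hl δ hδ β
    exact hull_left N M hN hM J a b hab ha hb hS A C h1 h2 h3 h4 RE l hl hδ β
  · intro hle R _ _ _ _ s δ hδ
    obtain ⟨T, hTc, hspan⟩ := exists_basis_of_Hull (FF k J a b M) (bk N a b)
    have hind := algebraicIndependent_of_trd N M hN J a b hS T hspan
      ((Nat.add_le_add_left hTc _).trans hle)
    refine sp_setb N M hN J a b hS T hspan hind _ ?_
    intro r z hrz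
    have h1 := affine_of_sp N M J a b hab hS hNM r z hrz
    have h2 : ∑ q, algebraMap (FF k J a b M) Ω (r q) * δ q = 0 := hδ r ⟨z, hrz.symm⟩
    have e : ∀ q, algebraMap Ω R (r q) *
        (algebraMap Ω R (M (a, q.1) (b, q.2)) + s * algebraMap Ω R (δ q)) =
        algebraMap Ω R (algebraMap (FF k J a b M) Ω (r q) * bk M a b q) +
          s * algebraMap Ω R (algebraMap (FF k J a b M) Ω (r q) * δ q) := by
      intro q
      rw [map_mul, map_mul, mul_add]
      have : algebraMap (FF k J a b M) Ω (r q) = (r q : Ω) := rfl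
      rw [this, bk]
      ring
    rw [Finset.sum_congr rfl fun q _ => e q, Finset.sum_add_distrib, ← map_sum, h1,
      ← Finset.mul_sum, ← map_sum, h2, map_zero, mul_zero, add_zero]
    rfl

/-- K1. -/
theorem K1 (σ : Ω ≃ₐ[k] Ω) (N M : ι × Bool → ι × Bool → Ω) (hN : ∀ x y, N x y = N y x)
    (hM : ∀ x y, M x y = M y x) (J : Finset ι) (a b : ι) (hab : a ≠ b) (ha : a ∉ J) (hb : b ∉ J)
    (hS : ∀ p ∈ SS J a b, σ (N p.1 p.2) = M p.1 p.2)
    (hNM : Sp k (fam (UU J a b) N) (fam (UU J a b) M))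
    (hT : fam (off (insert a J)) (absdir N b) ∈ Tan k (fam (off (insert a J)) N)) :
    ∃ D : Submodule Ω (Bool × Bool → Ω),
      trd k (Set.range (fam (UU J a b) N)) ≤
        trd k (Set.range (fam (SS J a b) N)) + Module.finrank Ω D ∧
      D ≤ Dab k (off (insert a J)) M a b ∧
      (∀ A C : Finset (ι × Bool), (∀ β, (b, β) ∈ C) → (∀ x ∈ A, x.1 ∈ J) →
        (∀ y ∈ C, y.1 ∈ insert b J) → (∀ x ∈ A, ∀ y ∈ C, x.1 ≠ y.1) →
        (∀ κ : ι × Bool → Ω, (∀ x ∈ A, ∑ y ∈ C, N x y * κ y = 0) →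
          ∀ α, ∑ y ∈ C, N (a, α) y * κ y = 0) →
        ∀ κ : ι × Bool → Ω, (∀ x ∈ A, ∑ y ∈ C, M x y * κ y = 0) →
          ∀ δ ∈ D, ∀ α, ∑ β, δ (α, β) * κ (b, β) = 0) ∧
      (∀ A C : Finset (ι × Bool), (∀ α, (a, α) ∈ A) → (∀ x ∈ A, x.1 ∈ insert a J) →
        (∀ y ∈ C, y.1 ∈ J) → (∀ x ∈ A, ∀ y ∈ C, x.1 ≠ y.1) →
        (∀ l : ι × Bool → Ω, (∀ y ∈ C, ∑ x ∈ A, l x * N x y = 0) →
          ∀ β, ∑ x ∈ A, l x * N x (b, β) = 0) →
        ∀ l : ι × Bool → Ω, (∀ y ∈ C, ∑ x ∈ A, l x * M x y = 0) →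
          ∀ δ ∈ D, ∀ β, ∑ α, l (a, α) * δ (α, β) = 0) ∧
      (trd k (Set.range (fam (SS J a b) N)) + Module.finrank Ω D ≤
          trd k (Set.range (fam (UU J a b) N)) →
        ∀ (R : Type) [CommRing R] [Algebra Ω R] [Algebra k R] [IsScalarTower k Ω R] (s : R),
          ∀ δ ∈ D, Sp k (fam (UU J a b) N)
            (fam (UU J a b) (setb M a b
              (fun q => algebraMap Ω R (M (a, q.1) (b, q.2)) + s * algebraMap Ω R (δ q))))) := by
  classical
  let N' : ι × Bool → ι × Bool → Ω := fun x y => σ (N x y)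
  have hinj : Function.Injective σ := σ.injective
  have eN' : ∀ B : Set (Pr ι), fam B N' = fun p => σ (fam B N p) := fun B => rfl
  have hSS : fam (SS J a b) M = fun p => σ (fam (SS J a b) N p) := by
    funext p; exact (hS p.1 p.2).symm
  have htS : trd k (Set.range (fam (SS J a b) M)) = trd k (Set.range (fam (SS J a b) N)) := by
    rw [hSS]
    exact (congrArg (trd k) (Set.range_comp σ (fam (SS J a b) N))).trans (trd_image σ _)
  have htU : trd k (Set.range (fam (UU J a b) N')) = trd k (Set.range (fam (UU J a b) N)) := by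
    rw [eN']
    exact (congrArg (trd k) (Set.range_comp σ (fam (UU J a b) N))).trans (trd_image σ _)
  have hsp1 : Sp k (fam (UU J a b) N') (fam (UU J a b) N) := by
    intro p hp
    have : aeval (fam (UU J a b) N') p = σ (aeval (fam (UU J a b) N) p) := by
      rw [eN']
      change _ = (σ : Ω →ₐ[k] Ω) _
      rw [← AlgHom.comp_apply, MvPolynomial.comp_aeval]
      rfl
    rw [this] at hp
    exact hinj (by rw [hp, map_zero])
  have hsp2 : Sp k (fam (UU J a b) N) (fam (UU J a b) N') := by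
    intro p hp
    have : aeval (fam (UU J a b) N') p = σ (aeval (fam (UU J a b) N) p) := by
      rw [eN']
      change _ = (σ : Ω →ₐ[k] Ω) _
      rw [← AlgHom.comp_apply, MvPolynomial.comp_aeval]
      rfl
    rw [this, hp, map_zero]
  have hT' : fam (off (insert a J)) (absdir N' b) ∈ Tan k (fam (off (insert a J)) N') := by
    have h := Tan_nat (σ : Ω →ₐ[k] Ω) hinj hT
    have e : fam (off (insert a J)) (absdir N' b) =
        fun i => (σ : Ω →ₐ[k] Ω) (fam (off (insert a J)) (absdir N b) i) := by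
      funext i
      simp [fam, absdir, N']
    rw [e]
    exact h
  obtain ⟨D, h0, h1, h2, h3, h4⟩ := K1aux (k := k) N' M (fun x y => congrArg σ (hN x y)) hM J a b
    hab ha hb hS (hsp1.trans hNM) hT'
  rw [htS, htU] at h0 h4
  refine ⟨D, h0, h1, ?_, ?_, ?_⟩
  · intro A C c1 c2 c3 c4 RE κ hκ δ hδ α
    refine h2 A C c1 c2 c3 c4 ?_ κ hκ δ hδ α
    intro κ' hκ' α'
    have := RE (fun y => σ.symm (κ' y)) ?_ α'
    · have e := congrArg σ this
      rw [map_sum, map_zero] at e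
      rw [← e]
      refine Finset.sum_congr rfl fun y _ => ?_
      rw [map_mul, AlgEquiv.apply_symm_apply]
    · intro x hx
      have := hκ' x hx
      apply hinj
      rw [map_sum, map_zero, ← this]
      refine Finset.sum_congr rfl fun y _ => ?_
      rw [map_mul, AlgEquiv.apply_symm_apply]
  · intro A C c1 c2 c3 c4 RE κ hκ δ hδ α
    refine h3 A C c1 c2 c3 c4 ?_ κ hκ δ hδ α
    intro κ' hκ' α'
    have := RE (fun y => σ.symm (κ' y)) ?_ α'
    · have e := congrArg σ this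
      rw [map_sum, map_zero] at e
      rw [← e]
      refine Finset.sum_congr rfl fun y _ => ?_
      rw [map_mul, AlgEquiv.apply_symm_apply]
    · intro x hx
      have := hκ' x hx
      apply hinj
      rw [map_sum, map_zero, ← this]
      refine Finset.sum_congr rfl fun y _ => ?_
      rw [map_mul, AlgEquiv.apply_symm_apply]
  · intro hle R _ _ _ _ s δ hδ
    exact hsp2.trans (h4 hle R s δ hδ)

end Pool.Agent.Lib.MP_0c183c_co_P9T
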