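import Pool.Agent.Lib.MP_0c183c_co_P9T.Tan

set_option autoImplicit false

/-!
# Absorption and specialisation (P9, (3.1))
-/

namespace Pool.Agent.Lib.MP_0c183c_co_P9T

open MvPolynomial

variable {ι : Type*}

/-- Ordered pairs of vertices. -/
abbrev Pr (ι : Type*) : Type _ := (ι × Bool) × (ι × Bool)

/-- Ordered pairs of vertices over `I`, in different elements. -/
def off (I : Finset ι) : Set (Pr ι) := {p | p.1.1 ∈ I ∧ p.2.1 ∈ I ∧ p.1.1 ≠ p.2.1}

/-- All ordered pairs of vertices over `I`. -/
def allp (I : Finset ι) : Set (Pr ι) := {p | p.1.1 ∈ I ∧ p.2.1 ∈ I}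

/-- The pairs of the block `a b`. -/
def blk (a b : ι) : Set (Pr ι) :=
  {p | (p.1.1 = a ∧ p.2.1 = b) ∨ (p.1.1 = b ∧ p.2.1 = a)}

/-- The family of the entries of the array `M` in the set `B` of pairs. -/
def fam {R : Type*} (B : Set (Pr ι)) (M : ι × Bool → ι × Bool → R) : B → R :=
  fun p => M p.1.1 p.1.2

/-- Direction of the absorption of `b`. -/
def absdir {R : Type*} [CommRing R] (M : ι × Bool → ι × Bool → R) (b : ι) :
    ι × Bool → ι × Bool → R :=
  fun x y => M x (b, false) * M (b, true) y + M x (b, true) * M (b, false) y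

/-- The absorption of `b` at the parameter `t`. -/
def absb {R : Type*} [CommRing R] (M : ι × Bool → ι × Bool → R) (b : ι) (t : R) :
    ι × Bool → ι × Bool → R :=
  fun x y => M x y + t * (M x (b, false) * M (b, true) y + M x (b, true) * M (b, false) y)

/-- The array with entries in an algebra. -/
def marr {R : Type*} (S : Type*) [CommSemiring R] [Semiring S] [Algebra R S]
    (M : ι × Bool → ι × Bool → R) : ι × Bool → ι × Bool → S :=
  fun x y => algebraMap R S (M x y)

/-- The set of the entries of `M` over `T`. -/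
def ents {R : Type*} (T : Finset ι) (M : ι × Bool → ι × Bool → R) : Set R :=
  {z | ∃ x y : ι × Bool, x.1 ∈ T ∧ y.1 ∈ T ∧ z = M x y}

variable {k Ω : Type*} [CommRing k] [CommRing Ω] [Algebra k Ω]

/-- (G): what holds after absorption at a generic parameter holds after absorption at every
parameter, in every commutative `Ω`-algebra. -/
theorem sp_absb {S : Type*} [CommRing S] [Algebra Ω S] [Algebra k S] [IsScalarTower k Ω S]
    (M : ι × Bool → ι × Bool → Ω) (T : Finset ι) (b : ι) (hb : b ∈ T) (B : Set (Pr ι))
    (hB : B ⊆ allp T) (t : Ω) (ht : Transcendental (Algebra.adjoin k (ents T M)) t) (t' : S) :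
    Sp k (fam B (absb M b t)) (fam B (absb (marr S M) b t')) := by
  intro p hp
  set A := Algebra.adjoin k (ents T M) with hA
  have hmem : ∀ x y : ι × Bool, x.1 ∈ T → y.1 ∈ T → M x y ∈ A := fun x y hx hy =>
    Algebra.subset_adjoin ⟨x, y, hx, hy, rfl⟩
  -- the array with values in `A`
  let e : B → Polynomial A := fun i =>
    Polynomial.C (⟨M i.1.1 i.1.2, hmem _ _ (hB i.2).1 (hB i.2).2⟩ : A) + Polynomial.X *
      (Polynomial.C (⟨M i.1.1 (b, false), hmem _ _ (hB i.2).1 hb⟩ : A) *
        Polynomial.C (⟨M (b, true) i.1.2, hmem _ _ hb (hB i.2).2⟩ : A) +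
      Polynomial.C (⟨M i.1.1 (b, true), hmem _ _ (hB i.2).1 hb⟩ : A) *
        Polynomial.C (⟨M (b, false) i.1.2, hmem _ _ hb (hB i.2).2⟩ : A))
  let q : Polynomial A := aeval e p
  have hq1 : Polynomial.aeval t q = aeval (fam B (absb M b t)) p := by
    have : (Polynomial.aeval t : Polynomial A →ₐ[A] Ω).restrictScalars k (aeval e p) =
        aeval (fun i => (Polynomial.aeval t : Polynomial A →ₐ[A] Ω).restrictScalars k (e i)) p := by
      rw [← AlgHom.comp_apply, MvPolynomial.comp_aeval]
    have h2 : (fun i => (Polynomial.aeval t : Polynomial A →ₐ[A] Ω).restrictScalars k (e i)) =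
        fam B (absb M b t) := by
      funext i
      simp only [e, AlgHom.restrictScalars_apply, map_add, map_mul, Polynomial.aeval_C,
        Polynomial.aeval_X, fam, absb]
      rfl
    rw [h2] at this
    exact this
  have hq0 : q = 0 := by
    by_contra h
    exact ht ⟨q, h, by rw [hq1, hp]⟩
  have hq2 : Polynomial.aeval t' q = aeval (fam B (absb (marr S M) b t')) p := by
    have : (Polynomial.aeval t' : Polynomial A →ₐ[A] S).restrictScalars k (aeval e p) =
        aeval (fun i => (Polynomial.aeval t' : Polynomial A →ₐ[A] S).restrictScalars k (e i)) p := by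
      rw [← AlgHom.comp_apply, MvPolynomial.comp_aeval]
    have h2 : (fun i => (Polynomial.aeval t' : Polynomial A →ₐ[A] S).restrictScalars k (e i)) =
        fam B (absb (marr S M) b t') := by
      funext i
      simp only [e, AlgHom.restrictScalars_apply, map_add, map_mul, Polynomial.aeval_C,
        Polynomial.aeval_X, fam, absb, marr]
      rfl
    rw [h2] at this
    exact this
  rw [← hq2, hq0, map_zero]

end Pool.Agent.Lib.MP_0c183c_co_P9T
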