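import Pool.Agent.Lib.MP_0c183c_co_P9T.K1core

set_option autoImplicit false
set_option linter.unusedSectionVars false

/-!
# The affine hull of the near block (P9, (S2))
-/

namespace Pool.Agent.Lib.MP_0c183c_co_P9T

open MvPolynomial

variable {ι : Type*} [DecidableEq ι] {k Ω : Type*} [Field k] [Field Ω] [Algebra k Ω]

theorem mem_UU_blk {J : Finset ι} {a b : ι} (hab : a ≠ b) (q : Bool × Bool) :
    (((a, q.1), (b, q.2)) : Pr ι) ∈ UU J a b :=
  ⟨Finset.mem_insert_self _ _, Finset.mem_insert_of_mem (Finset.mem_insert_self _ _), hab⟩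

/-- A linear relation of the block `a b` of `N` over the known field is also true for `M`, if `M`
is a specialisation of `N`. -/
theorem affine_of_sp (N M : ι × Bool → ι × Bool → Ω) (J : Finset ι) (a b : ι) (hab : a ≠ b)
    (hS : ∀ p ∈ SS J a b, N p.1 p.2 = M p.1 p.2)
    (hNM : Sp k (fam (UU J a b) N) (fam (UU J a b) M))
    (r : Bool × Bool → FF k J a b M) (z : FF k J a b M)
    (h : ∑ q, algebraMap (FF k J a b M) Ω (r q) * bk N a b q = algebraMap (FF k J a b M) Ω z) :
    ∑ q, algebraMap (FF k J a b M) Ω (r q) * bk M a b q = algebraMap (FF k J a b M) Ω z := by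
  classical
  -- numerators and denominators
  have hrep : ∀ x : FF k J a b M, ∃ n d : MvPolynomial (SS J a b) k,
      aeval (fam (SS J a b) M) d ≠ 0 ∧
      (x : Ω) * aeval (fam (SS J a b) M) d = aeval (fam (SS J a b) M) n := by
    intro x
    obtain ⟨n, d, hx⟩ := (IntermediateField.mem_adjoin_range_iff k (fam (SS J a b) M) (x : Ω)).1 x.2
    by_cases hd : aeval (fam (SS J a b) M) d = 0
    · refine ⟨0, 1, by simp, ?_⟩
      rw [hx, hd]; simp
    · exact ⟨n, d, hd, by rw [hx, div_mul_cancel₀ _ hd]⟩
  choose n d hd hnd using hrep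
  let inc : SS J a b → UU J a b := fun p => ⟨p.1, p.2.1⟩
  have hinc : ∀ (K : ι × Bool → ι × Bool → Ω) (p : MvPolynomial (SS J a b) k),
      aeval (fam (UU J a b) K) (rename inc p) = aeval (fam (SS J a b) K) p := by
    intro K p
    rw [aeval_rename]; rfl
  have hNS : fam (SS J a b) N = fam (SS J a b) M := by
    funext p; exact hS p.1 p.2
  -- the polynomial relation
  let D : MvPolynomial (SS J a b) k := d z * ∏ q, d (r q)
  have hD : aeval (fam (SS J a b) M) D ≠ 0 := by
    simp only [D, map_mul, map_prod]
    exact mul_ne_zero (hd z) (Finset.prod_ne_zero_iff.2 fun q _ => hd (r q))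
  let P : MvPolynomial (UU J a b) k :=
    (∑ q, rename inc (n (r q) * (d z * ∏ q' ∈ Finset.univ.erase q, d (r q'))) *
      X (⟨((a, q.1), (b, q.2)), mem_UU_blk hab q⟩ : UU J a b)) -
      rename inc (n z * ∏ q, d (r q))
  have hP : ∀ K : ι × Bool → ι × Bool → Ω, fam (SS J a b) K = fam (SS J a b) M →
      aeval (fam (UU J a b) K) P = aeval (fam (SS J a b) M) D *
        (∑ q, (r q : Ω) * bk K a b q - (z : Ω)) := by
    intro K hK
    simp only [P, map_sub, map_sum, map_mul, hinc, aeval_X, hK, map_prod, D]
    rw [mul_sub, Finset.mul_sum]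
    congr 1
    · refine Finset.sum_congr rfl fun q _ => ?_
      rw [← hnd (r q), ← Finset.mul_prod_erase Finset.univ
        (fun q' => aeval (fam (SS J a b) M) (d (r q'))) (Finset.mem_univ q)]
      have : fam (UU J a b) K ⟨((a, q.1), (b, q.2)), mem_UU_blk hab q⟩ = bk K a b q := rfl
      rw [this]
      ring
    · rw [← hnd z]
      ring
  have h0 : aeval (fam (UU J a b) N) P = 0 := by
    rw [hP N hNS]
    have : ∑ q, (r q : Ω) * bk N a b q = (z : Ω) := h
    rw [this, sub_self, mul_zero]
  have h1 := hNM P h0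
  rw [hP M rfl] at h1
  have h2 := (mul_eq_zero.1 h1).resolve_left hD
  exact sub_eq_zero.1 h2

/-- The array with the block `a b` replaced by `c`. -/
def setb {R : Type*} [CommRing R] [Algebra Ω R] (M : ι × Bool → ι × Bool → Ω) (a b : ι)
    (c : Bool × Bool → R) : ι × Bool → ι × Bool → R :=
  fun x y => if x.1 = a ∧ y.1 = b then c (x.2, y.2) else
    if x.1 = b ∧ y.1 = a then c (y.2, x.2) else algebraMap Ω R (M x y)

/-- (S2): if the near block is generic in its affine hull, then every point of the affine hull is a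
specialisation of it over the known data. -/
theorem sp_setb {R : Type*} [CommRing R] [Algebra Ω R] [Algebra k R] [IsScalarTower k Ω R]
    (N M : ι × Bool → ι × Bool → Ω) (hN : ∀ x y, N x y = N y x) (J : Finset ι) (a b : ι)
    (hS : ∀ p ∈ SS J a b, N p.1 p.2 = M p.1 p.2)
    (B : Finset (Bool × Bool))
    (hspan : ∀ i, bk N a b i ∈ Submodule.span (FF k J a b M) (insert 1 (bk N a b '' B)))
    (hind : AlgebraicIndependent (FF k J a b M) (fun q : B => bk N a b q.1))
    (c : Bool × Bool → R)
    (hc : ∀ (r : Bool × Bool → FF k J a b M) (z : FF k J a b M),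
      ∑ q, algebraMap (FF k J a b M) Ω (r q) * bk N a b q = algebraMap (FF k J a b M) Ω z →
      ∑ q, algebraMap Ω R (r q) * c q = algebraMap Ω R z) :
    Sp k (fam (UU J a b) N) (fam (UU J a b) (setb M a b c)) := by
  classical
  set F := FF k J a b M with hF
  -- affine expressions
  have hexp : ∀ i, ∃ (u : F) (v : B → F), bk N a b i = (u : Ω) + ∑ q, (v q : Ω) * bk N a b q.1 := by
    intro i
    have h := hspan i
    rw [Submodule.mem_span_insert] at h
    obtain ⟨u, w, hw, e⟩ := h
    have hB : (bk N a b '' (B : Set (Bool × Bool))) = Set.range (fun q : B => bk N a b q.1) := by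
      ext z
      simp
    rw [hB, Submodule.mem_span_range_iff_exists_fun] at hw
    obtain ⟨v, rfl⟩ := hw
    refine ⟨u, v, ?_⟩
    rw [e]
    simp only [Algebra.smul_def, mul_one]
    rfl
  choose u v huv using hexp
  have hc' : ∀ i, c i = algebraMap Ω R (u i) + ∑ q : B, algebraMap Ω R (v i q) * c q.1 := by
    intro i
    have h := hc (fun q => (if q = i then 1 else 0) - (if h : q ∈ B then v i ⟨q, h⟩ else 0)) (u i) ?_
    · have e1 : ∑ q, algebraMap Ω R
          (((if q = i then (1 : F) else 0) - (if h : q ∈ B then v i ⟨q, h⟩ else 0) : F) : Ω) * c q =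
          c i - ∑ q : B, algebraMap Ω R (v i q) * c q.1 := by
        have e2 : ∀ q, algebraMap Ω R
          (((if q = i then (1 : F) else 0) - (if h : q ∈ B then v i ⟨q, h⟩ else 0) : F) : Ω) * c q =
          (if q = i then c q else 0) -
            (if h : q ∈ B then algebraMap Ω R (v i ⟨q, h⟩) * c q else 0) := by
          intro q
          split_ifs <;> simp [sub_mul]
        rw [Finset.sum_congr rfl fun q _ => e2 q, Finset.sum_sub_distrib]
        congr 1
        · simp
        · rw [Finset.sum_dite, Finset.sum_const_zero, add_zero]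
          refine Finset.sum_bij (fun q _ => (⟨q.1, (Finset.mem_filter.1 q.2).2⟩ : B)) ?_ ?_ ?_ ?_
          · intro q _; exact Finset.mem_univ _
          · intro q _ q' _ h
            exact Subtype.ext (Subtype.mk.inj h)
          · intro q _
            exact ⟨⟨q.1, Finset.mem_filter.2 ⟨Finset.mem_univ _, q.2⟩⟩, Finset.mem_univ _, rfl⟩
          · intro q _; rfl
      rw [e1] at h
      rw [← h]; ring
    · have e2 : ∀ q, algebraMap F Ω
          ((if q = i then (1 : F) else 0) - (if h : q ∈ B then v i ⟨q, h⟩ else 0)) * bk N a b q =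
          (if q = i then bk N a b q else 0) -
            (if h : q ∈ B then (v i ⟨q, h⟩ : Ω) * bk N a b q else 0) := by
        intro q
        rw [map_sub, sub_mul]
        congr 1
        · split_ifs <;> simp
        · split_ifs
          · rfl
          · simp
      rw [Finset.sum_congr rfl fun q _ => e2 q, Finset.sum_sub_distrib]
      have e3 : ∑ q, (if h : q ∈ B then (v i ⟨q, h⟩ : Ω) * bk N a b q else 0) =
          ∑ q : B, (v i q : Ω) * bk N a b q.1 := by
        rw [Finset.sum_dite, Finset.sum_const_zero, add_zero]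
        refine Finset.sum_bij (fun q _ => (⟨q.1, (Finset.mem_filter.1 q.2).2⟩ : B)) ?_ ?_ ?_ ?_
        · intro q _; exact Finset.mem_univ _
        · intro q _ q' _ h
          exact Subtype.ext (Subtype.mk.inj h)
        · intro q _
          exact ⟨⟨q.1, Finset.mem_filter.2 ⟨Finset.mem_univ _, q.2⟩⟩, Finset.mem_univ _, rfl⟩
        · intro q _; rfl
      rw [e3]
      simp only [Finset.sum_ite_eq', Finset.mem_univ, if_true]
      rw [huv i]
      change _ = ((u i : F) : Ω)
      ring
  intro p hp
  -- the generic polynomial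
  let e : UU J a b → MvPolynomial B F := fun i =>
    if i.1.1.1 = a ∧ i.1.2.1 = b then
      C (u (i.1.1.2, i.1.2.2)) + ∑ q, C (v (i.1.1.2, i.1.2.2) q) * X q
    else if i.1.1.1 = b ∧ i.1.2.1 = a then
      C (u (i.1.2.2, i.1.1.2)) + ∑ q, C (v (i.1.2.2, i.1.1.2) q) * X q
    else if h : i.1 ∈ SS J a b then
      C ⟨M i.1.1 i.1.2, IntermediateField.subset_adjoin k _ ⟨⟨i.1, h⟩, rfl⟩⟩
    else 0
  have hnot : ∀ i : UU J a b, ¬ (i.1.1.1 = a ∧ i.1.2.1 = b) → ¬ (i.1.1.1 = b ∧ i.1.2.1 = a) →
      i.1 ∈ SS J a b := by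
    intro i h1 h2
    exact ⟨i.2, fun h => h.elim h1 h2⟩
  have heN : ∀ i : UU J a b, aeval (fun q : B => bk N a b q.1) (e i) = fam (UU J a b) N i := by
    intro i
    simp only [e]
    split_ifs with h1 h2 h3
    · rw [map_add, map_sum]
      simp only [map_mul, aeval_C, aeval_X]
      have : fam (UU J a b) N i = bk N a b (i.1.1.2, i.1.2.2) :=
        congrArg₂ N (Prod.ext h1.1 rfl) (Prod.ext h1.2 rfl)
      rw [this, huv]
      rfl
    · rw [map_add, map_sum]
      simp only [map_mul, aeval_C, aeval_X]
      have : fam (UU J a b) N i = bk N a b (i.1.2.2, i.1.1.2) :=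
        (hN _ _).trans (congrArg₂ N (Prod.ext h2.2 rfl) (Prod.ext h2.1 rfl))
      rw [this, huv]
      rfl
    · rw [aeval_C]
      exact (hS _ h3).symm
    · exact absurd (hnot i h1 h2) h3
  have hP0 : (aeval e p : MvPolynomial B F) = 0 := by
    have h1 : aeval (fun q : B => bk N a b q.1) (aeval e p : MvPolynomial B F) = 0 := by
      have : (aeval (fun q : B => bk N a b q.1) : MvPolynomial B F →ₐ[F] Ω).restrictScalars k
          (aeval e p) = aeval (fun i => (aeval (fun q : B => bk N a b q.1) :
            MvPolynomial B F →ₐ[F] Ω).restrictScalars k (e i)) p := by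
        rw [← AlgHom.comp_apply, MvPolynomial.comp_aeval]
      have h2 : (fun i => (aeval (fun q : B => bk N a b q.1) :
            MvPolynomial B F →ₐ[F] Ω).restrictScalars k (e i)) = fam (UU J a b) N := by
        funext i; exact heN i
      rw [h2, hp] at this
      exact this
    exact (injective_iff_map_eq_zero _).1 hind _ h1
  have : IsScalarTower k F R := IsScalarTower.of_algebraMap_eq fun x => by
    rw [IsScalarTower.algebraMap_apply k Ω R, IsScalarTower.algebraMap_apply k F Ω]
    rfl
  have hec : ∀ i : UU J a b, aeval (fun q : B => c q.1) (e i) = fam (UU J a b) (setb M a b c) i := by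
    intro i
    simp only [e, fam, setb]
    split_ifs with h1 h2 h3
    · rw [map_add, map_sum]
      simp only [map_mul, aeval_C, aeval_X]
      rw [hc' (i.1.1.2, i.1.2.2)]
      rfl
    · rw [map_add, map_sum]
      simp only [map_mul, aeval_C, aeval_X]
      rw [hc' (i.1.2.2, i.1.1.2)]
      rfl
    · rw [aeval_C]
      rfl
    · exact absurd (hnot i h1 h2) h3
  have : (aeval (fun q : B => c q.1) : MvPolynomial B F →ₐ[F] R).restrictScalars k
      (aeval e p) = aeval (fun i => (aeval (fun q : B => c q.1) :
        MvPolynomial B F →ₐ[F] R).restrictScalars k (e i)) p := by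
    rw [← AlgHom.comp_apply, MvPolynomial.comp_aeval]
  have h2 : (fun i => (aeval (fun q : B => c q.1) :
        MvPolynomial B F →ₐ[F] R).restrictScalars k (e i)) = fam (UU J a b) (setb M a b c) := by
    funext i; exact hec i
  rw [h2, AlgHom.restrictScalars_apply, hP0, map_zero] at this
  exact this.symm

end Pool.Agent.Lib.MP_0c183c_co_P9T
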