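import Pool.Agent.Lib.MP_0c183c_co_P9T.Aff
import Pool.Agent.Lib.MP_0c183c_co_P9L.Loci2

set_option autoImplicit false
set_option linter.unusedSectionVars false

/-!
# K1 (P9, (3.1), (3.2), (4.1), (S2)): near array `N`, far array `M`
-/

namespace Pool.Agent.Lib.MP_0c183c_co_P9T

open MvPolynomial Pool.Agent.Lib.MP_0c183c_co_P9L

section nat

variable {k Ω Ω' : Type*} [CommRing k] [CommRing Ω] [CommRing Ω'] [Algebra k Ω] [Algebra k Ω']
  {s : Type*}

theorem dd_map (σ : Ω →ₐ[k] Ω') (x v : s → Ω) (p : MvPolynomial s k) :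
    dd k (fun i => σ (x i)) (fun i => σ (v i)) p = σ (dd k x v p) := by
  induction p using MvPolynomial.induction_on with
  | C a => simp [dd, TrivSqZeroExt.algebraMap_eq_inl']
  | add p q hp hq =>
    simp only [dd, map_add, TrivSqZeroExt.snd_add] at hp hq ⊢
    rw [hp, hq]
  | mul_X p i hp =>
    have h1 : aeval (fun i => σ (x i)) p = σ (aeval x p) := by
      rw [← AlgHom.comp_apply, MvPolynomial.comp_aeval]
    simp only [dd, map_mul, aeval_X, TrivSqZeroExt.snd_mul, fst_aeval_dual] at hp ⊢
    rw [hp, h1]
    simp only [dual, TrivSqZeroExt.snd_add, TrivSqZeroExt.snd_inl, TrivSqZeroExt.snd_inr,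
      TrivSqZeroExt.fst_add, TrivSqZeroExt.fst_inl, TrivSqZeroExt.fst_inr, zero_add, add_zero,
      smul_eq_mul, MulOpposite.smul_eq_mul_unop, MulOpposite.unop_op, map_add, map_mul]

/-- Naturality of the tangent space. -/
theorem Tan_nat (σ : Ω →ₐ[k] Ω') (hσ : Function.Injective σ) {x v : s → Ω} (h : v ∈ Tan k x) :
    (fun i => σ (v i)) ∈ Tan k (fun i => σ (x i)) := by
  intro p hp
  have h1 : aeval (fun i => σ (x i)) p = σ (aeval x p) := by
    rw [← AlgHom.comp_apply, MvPolynomial.comp_aeval]
  rw [h1] at hp
  have h2 := h p (hσ (by rw [hp, map_zero]))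
  rw [dd_map, h2, map_zero]

end nat

variable {ι : Type*} [DecidableEq ι] {k Ω : Type*} [Field k] [Field Ω] [Algebra k Ω]

theorem finite_off (I : Finset ι) : (off I).Finite := by
  refine Set.Finite.subset ((I ×ˢ (Finset.univ : Finset Bool)) ×ˢ
    (I ×ˢ (Finset.univ : Finset Bool))).finite_toSet ?_
  rintro p ⟨h1, h2, -⟩
  simp only [Finset.coe_product, Set.mem_prod, Finset.mem_coe, Finset.mem_univ, and_true]
  exact ⟨h1, h2⟩

/-- The entries of `N` over `J + a + b` are algebraic over the known data and any part of the block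
`a b` over which the block is algebraic. -/
theorem trd_UU_le (N M : ι × Bool → ι × Bool → Ω) (hN : ∀ x y, N x y = N y x) (J : Finset ι)
    (a b : ι) (hS : ∀ p ∈ SS J a b, N p.1 p.2 = M p.1 p.2) (T : Finset (Bool × Bool))
    (hT : ∀ q, IsAlgebraic (IntermediateField.adjoin k
      (Set.range (fam (SS J a b) M) ∪ bk N a b '' T)) (bk N a b q)) :
    trd k (Set.range (fam (UU J a b) N)) ≤ trd k (Set.range (fam (SS J a b) M)) + T.card := by
  have hf1 : (Set.range (fam (SS J a b) M)).Finite := by
    have : Finite (SS J a b) := (finite_off _).subset Set.sdiff_subset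
    exact Set.finite_range _
  have hf2 : (bk N a b '' (T : Set (Bool × Bool))).Finite := Set.toFinite _
  have hf3 : (Set.range (fam (UU J a b) N)).Finite := by
    have : Finite (UU J a b) := finite_off _
    exact Set.finite_range _
  have h1 : trd k (Set.range (fam (UU J a b) N)) ≤
      trd k (Set.range (fam (SS J a b) M) ∪ bk N a b '' T) := by
    refine trd_le_of_isAlgebraic (hf1.union hf2) hf3 ?_
    rintro _ ⟨p, rfl⟩
    by_cases hp : p.1 ∈ SS J a b
    · have : fam (UU J a b) N p = fam (SS J a b) M ⟨p.1, hp⟩ := hS _ hp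
      rw [this]
      exact isAlgebraic_algebraMap (⟨fam (SS J a b) M ⟨p.1, hp⟩,
        IntermediateField.subset_adjoin k _ (Or.inl ⟨_, rfl⟩)⟩ : IntermediateField.adjoin k
        (Set.range (fam (SS J a b) M) ∪ bk N a b '' T))
    · have hb : p.1 ∈ blk a b := by
        by_contra h
        exact hp ⟨p.2, h⟩
      rcases hb with ⟨h1, h2⟩ | ⟨h1, h2⟩
      · have : fam (UU J a b) N p = bk N a b (p.1.1.2, p.1.2.2) :=
          congrArg₂ N (Prod.ext h1 rfl) (Prod.ext h2 rfl)
        rw [this]
        exact hT _
      · have : fam (UU J a b) N p = bk N a b (p.1.2.2, p.1.1.2) :=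
          (hN _ _).trans (congrArg₂ N (Prod.ext h2 rfl) (Prod.ext h1 rfl))
        rw [this]
        exact hT _
  refine h1.trans ((trd_union_le hf1 hf2).trans ?_)
  refine Nat.add_le_add_left ((trd_le_ncard hf2).trans ?_) _
  refine (Set.ncard_image_le (Finset.finite_toSet T)).trans ?_
  rw [Set.ncard_coe_finset]

/-- Elements of the span over the known field are algebraic. -/
theorem isAlgebraic_of_span (N M : ι × Bool → ι × Bool → Ω) (J : Finset ι) (a b : ι)
    (T : Finset (Bool × Bool)) {z : Ω}
    (hz : z ∈ Submodule.span (FF k J a b M) (insert 1 (bk N a b '' T))) :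
    IsAlgebraic (IntermediateField.adjoin k
      (Set.range (fam (SS J a b) M) ∪ bk N a b '' T)) z := by
  set L := IntermediateField.adjoin k (Set.range (fam (SS J a b) M) ∪ bk N a b '' T) with hL
  have hle : FF k J a b M ≤ L := IntermediateField.adjoin.mono _ _ _ Set.subset_union_left
  have hmem : z ∈ L := by
    refine Submodule.span_induction (p := fun z _ => z ∈ L) ?_ ?_ ?_ ?_ hz
    · rintro x (rfl | hx)
      · exact one_mem L
      · exact IntermediateField.subset_adjoin k _ (Or.inr hx)
    · exact zero_mem L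
    · intro x y _ _ hx hy
      exact add_mem hx hy
    · intro r x _ hx
      rw [Algebra.smul_def]
      exact mul_mem (hle r.2) hx
  exact isAlgebraic_algebraMap (⟨z, hmem⟩ : L)

/-- If the near block has transcendence degree `≥ card T` over the known field then the subfamily
`T`, which generates it, is algebraically independent. -/
theorem algebraicIndependent_of_trd (N M : ι × Bool → ι × Bool → Ω) (hN : ∀ x y, N x y = N y x)
    (J : Finset ι) (a b : ι) (hS : ∀ p ∈ SS J a b, N p.1 p.2 = M p.1 p.2)
    (T : Finset (Bool × Bool))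
    (hspan : ∀ i, bk N a b i ∈ Submodule.span (FF k J a b M) (insert 1 (bk N a b '' T)))
    (h : trd k (Set.range (fam (SS J a b) M)) + T.card ≤
      trd k (Set.range (fam (UU J a b) N))) :
    AlgebraicIndependent (FF k J a b M) (fun q : T => bk N a b q.1) := by
  classical
  rw [algebraicIndependent_iff_trd]
  obtain ⟨J', hJ', hJc, hJa⟩ := exists_basis_subfamily (k := FF k J a b M)
    (fun q : T => bk N a b q.1)
  rw [← hJc]
  have hle : J'.ncard ≤ Fintype.card T := by
    rw [← Nat.card_eq_fintype_card]
    exact Set.ncard_le_card J'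
  refine le_antisymm hle ?_
  by_contra hlt
  push Not at hlt
  -- the smaller generating family
  let T' : Finset (Bool × Bool) := (J'.toFinite.toFinset).image Subtype.val
  have hT'c : T'.card ≤ J'.ncard := by
    refine Finset.card_image_le.trans ?_
    rw [Set.ncard_eq_toFinset_card J']
  have hT' : ∀ z : Ω, z ∈ bk N a b '' T' ↔
      z ∈ Set.range (fun j : J' => bk N a b (j : T).1) := by
    intro z
    simp only [T', Finset.coe_image, Set.Finite.coe_toFinset, Set.mem_image, Set.mem_range]
    constructor
    · rintro ⟨_, ⟨j, hj, rfl⟩, rfl⟩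
      exact ⟨⟨j, hj⟩, rfl⟩
    · rintro ⟨j, rfl⟩
      exact ⟨_, ⟨j.1, j.2, rfl⟩, rfl⟩
  set L' := IntermediateField.adjoin k (Set.range (fam (SS J a b) M) ∪ bk N a b '' T') with hL'
  have hFL : FF k J a b M ≤ L' := IntermediateField.adjoin.mono _ _ _ Set.subset_union_left
  -- algebraic over the smaller field
  have hadj : ∀ z ∈ Algebra.adjoin (FF k J a b M)
      (Set.range (fun j : J' => bk N a b (j : T).1)), z ∈ L' := by
    intro z hz
    refine Algebra.adjoin_induction (p := fun z _ => z ∈ L') ?_ ?_ ?_ ?_ hz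
    · intro x hx
      exact IntermediateField.subset_adjoin k _ (Or.inr ((hT' x).2 hx))
    · intro r
      exact hFL r.2
    · intro x y _ _ hx hy
      exact add_mem hx hy
    · intro x y _ _ hx hy
      exact mul_mem hx hy
  have halgT : ∀ q : T, IsAlgebraic L' (bk N a b q.1) := by
    intro q
    have h1 := hJa q
    let f : Algebra.adjoin (FF k J a b M)
        (Set.range (fun j : J' => bk N a b (j : T).1)) →+* L' :=
      { toFun := fun z => ⟨z.1, hadj z.1 z.2⟩
        map_one' := rfl
        map_mul' := fun _ _ => rfl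
        map_zero' := rfl
        map_add' := fun _ _ => rfl }
    exact IsAlgebraic.ringHom_of_comp_eq f (RingHom.id Ω) h1
      (fun x y hxy => Subtype.ext (congrArg (fun w : L' => (w : Ω)) hxy)) (by ext z; rfl)
  have hall : ∀ q, IsAlgebraic L' (bk N a b q) := by
    intro q
    have h1 := hspan q
    -- the algebraic closure of `L'` in `Ω`
    have h2 : ∀ z ∈ Submodule.span (FF k J a b M) (insert 1 (bk N a b '' T)),
        IsAlgebraic L' z := by
      intro z hz
      refine Submodule.span_induction (p := fun z _ => IsAlgebraic L' z) ?_ ?_ ?_ ?_ hz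
      · rintro x (rfl | hx)
        · exact isAlgebraic_one
        · obtain ⟨q, hq, rfl⟩ := hx
          exact halgT ⟨q, hq⟩
      · exact isAlgebraic_zero
      · intro x y _ _ hx hy
        exact hx.add hy
      · intro r x _ hx
        rw [Algebra.smul_def]
        exact (isAlgebraic_algebraMap (⟨(r : Ω), hFL r.2⟩ : L')).mul hx
    exact h2 _ h1
  have h3 := trd_UU_le (k := k) N M hN J a b hS T' hall
  have h4 : Fintype.card T = T.card := Fintype.card_coe T
  omega

end Pool.Agent.Lib.MP_0c183c_co_P9T
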