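import Mathlib

set_option autoImplicit false

/-!
# Specialisations and tangent spaces of finite families (P9, parts (C)+(D))

`k` is the base field (at the end `ZMod 2`), `Ω` the big field.
-/

namespace Pool.Agent.Lib.MP_0c183c_co_P9T

open MvPolynomial

universe u v w

section Sp

variable (k : Type u) [CommRing k]

/-- `y` satisfies all polynomial relations over `k` of the family `x`. -/
def Sp {s : Type*} {R R' : Type*} [CommRing R] [CommRing R'] [Algebra k R] [Algebra k R']
    (x : s → R) (y : s → R') : Prop :=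
  ∀ p : MvPolynomial s k, aeval x p = 0 → aeval y p = 0

variable {k}

theorem Sp.refl {s R : Type*} [CommRing R] [Algebra k R] (x : s → R) : Sp k x x :=
  fun _ h => h

theorem Sp.trans {s R R' R'' : Type*} [CommRing R] [CommRing R'] [CommRing R''] [Algebra k R]
    [Algebra k R'] [Algebra k R''] {x : s → R} {y : s → R'} {z : s → R''}
    (h : Sp k x y) (h' : Sp k y z) : Sp k x z :=
  fun p hp => h' p (h p hp)

theorem aeval_aeval_map {s t S : Type*} [CommRing S] [Algebra k S] (z : s → S)
    (f : t → MvPolynomial s k) (p : MvPolynomial t k) :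
    aeval z (aeval f p) = aeval (fun j => aeval z (f j)) p := by
  rw [← AlgHom.comp_apply, MvPolynomial.comp_aeval]

/-- Polynomial images. -/
theorem Sp.map {s t R R' : Type*} [CommRing R] [CommRing R'] [Algebra k R] [Algebra k R']
    {x : s → R} {y : s → R'} (h : Sp k x y) (f : t → MvPolynomial s k) :
    Sp k (fun j => aeval x (f j)) (fun j => aeval y (f j)) := by
  intro p hp
  rw [← aeval_aeval_map] at hp ⊢
  exact h _ hp

/-- Subfamilies. -/
theorem Sp.comp {s t R R' : Type*} [CommRing R] [CommRing R'] [Algebra k R] [Algebra k R']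
    {x : s → R} {y : s → R'} (h : Sp k x y) (f : t → s) : Sp k (x ∘ f) (y ∘ f) := by
  have := h.map (fun j => X (f j) : t → MvPolynomial s k)
  simp only [aeval_X] at this
  exact this

end Sp

section Tan

variable (k : Type u) [CommRing k] {Ω : Type v} [CommRing Ω] [Algebra k Ω] {s : Type w}

/-- The family `x + ε v` over the dual numbers. -/
def dual (x v : s → Ω) : s → TrivSqZeroExt Ω Ω :=
  fun i => TrivSqZeroExt.inl (x i) + TrivSqZeroExt.inr (v i)

/-- The derivative of the polynomial `p` at `x` in direction `v`. -/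
noncomputable def dd (x v : s → Ω) (p : MvPolynomial s k) : Ω := (aeval (dual x v) p).snd

theorem fst_aeval_dual (x v : s → Ω) (p : MvPolynomial s k) :
    (aeval (dual x v) p).fst = aeval x p := by
  have h : (TrivSqZeroExt.fstHom k Ω Ω).comp (aeval (dual x v)) = aeval x := by
    ext i
    simp [dual]
  exact DFunLike.congr_fun h p

theorem dd_add (x v w : s → Ω) (p : MvPolynomial s k) :
    dd k x (v + w) p = dd k x v p + dd k x w p := by
  induction p using MvPolynomial.induction_on with
  | C a => simp [dd, TrivSqZeroExt.algebraMap_eq_inl']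
  | add p q hp hq =>
    simp only [dd, map_add, TrivSqZeroExt.snd_add] at hp hq ⊢
    rw [hp, hq]; ring
  | mul_X p i hp =>
    simp only [dd, map_mul, aeval_X, TrivSqZeroExt.snd_mul, fst_aeval_dual] at hp ⊢
    rw [hp]
    simp [dual]
    ring

theorem dd_smul (x v : s → Ω) (c : Ω) (p : MvPolynomial s k) :
    dd k x (c • v) p = c * dd k x v p := by
  induction p using MvPolynomial.induction_on with
  | C a => simp [dd, TrivSqZeroExt.algebraMap_eq_inl']
  | add p q hp hq =>
    simp only [dd, map_add, TrivSqZeroExt.snd_add] at hp hq ⊢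
    rw [hp, hq]; ring
  | mul_X p i hp =>
    simp only [dd, map_mul, aeval_X, TrivSqZeroExt.snd_mul, fst_aeval_dual] at hp ⊢
    rw [hp]
    simp [dual]
    ring

theorem dd_zero (x : s → Ω) (p : MvPolynomial s k) : dd k x 0 p = 0 := by
  have := dd_smul k x 0 0 p
  simpa using this

/-- The tangent space at `x` of the `k`-locus of the family `x`. -/
def Tan (x : s → Ω) : Submodule Ω (s → Ω) where
  carrier := {v | ∀ p : MvPolynomial s k, aeval x p = 0 → dd k x v p = 0}
  add_mem' := by
    intro v w hv hw p hp
    rw [dd_add, hv p hp, hw p hp, add_zero]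
  zero_mem' := fun p _ => dd_zero k x p
  smul_mem' := by
    intro c v hv p hp
    rw [dd_smul, hv p hp, mul_zero]

theorem mem_Tan {x v : s → Ω} :
    v ∈ Tan k x ↔ ∀ p : MvPolynomial s k, aeval x p = 0 → dd k x v p = 0 := Iff.rfl

/-- `v` is tangent iff `x + ε v` is a specialisation of `x`. -/
theorem mem_Tan_iff_Sp {x v : s → Ω} : v ∈ Tan k x ↔ Sp k x (dual x v) := by
  constructor
  · intro h p hp
    refine TrivSqZeroExt.ext ?_ ?_
    · rw [fst_aeval_dual, hp]; rfl
    · exact h p hp
  · intro h p hp
    have := h p hp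
    rw [dd, this]; rfl

/-- The differential of a polynomial map maps tangent vectors to tangent vectors. -/
theorem Tan_map {t : Type*} {x v : s → Ω} (hv : v ∈ Tan k x) (f : t → MvPolynomial s k) :
    (fun j => dd k x v (f j)) ∈ Tan k (fun j => aeval x (f j)) := by
  rw [mem_Tan_iff_Sp] at hv ⊢
  have := hv.map f
  convert this using 1
  funext j
  refine TrivSqZeroExt.ext ?_ ?_
  · rw [fst_aeval_dual]; simp [dual]
  · simp [dual, dd]

theorem Tan_comp {t : Type*} {x v : s → Ω} (hv : v ∈ Tan k x) (f : t → s) :
    (v ∘ f) ∈ Tan k (x ∘ f) := by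
  rw [mem_Tan_iff_Sp] at hv ⊢
  exact hv.comp f

end Tan

end Pool.Agent.Lib.MP_0c183c_co_P9T
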